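import Mathlib

/-! A bounded collision-free solution of the four-body problem has negative energy. -/

set_option autoImplicit false

open scoped RealInnerProductSpace Topology

noncomputable section

namespace Pool.Agent.Lib.MP_ba391d_an

lemma not_bounded_of_convex (f g h : ℝ → ℝ) (hf : ∀ t, HasDerivAt f (g t) t)
    (hg : ∀ t, HasDerivAt g (h t) t) (hh : ∀ t, 0 < h t) (B : ℝ) (hB : ∀ t, |f t| ≤ B) :
    False := by
  have hmono : StrictMono g :=
    strictMono_of_deriv_pos fun t => by rw [(hg t).deriv]; exact hh t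
  have hfc : Continuous f := continuous_iff_continuousAt.mpr fun t => (hf t).continuousAt
  have hB0 : 0 ≤ B := le_trans (abs_nonneg _) (hB 0)
  have h01 : g 0 < g 1 := hmono (by norm_num)
  rcases lt_or_ge 0 (g 1) with h1 | h1
  · set T := (2 * B + 1) / g 1 with hT
    have hTp : 0 < T := by positivity
    obtain ⟨c, hc, hc'⟩ := exists_hasDerivAt_eq_slope f g (by linarith : (1 : ℝ) < 1 + T)
      hfc.continuousOn (fun x _ => hf x)
    have h2 : g 1 < g c := hmono hc.1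
    rw [hc', add_sub_cancel_left, lt_div_iff₀ hTp, hT, mul_div_cancel₀ _ h1.ne'] at h2
    have := abs_le.mp (hB (1 + (2 * B + 1) / g 1))
    have := abs_le.mp (hB 1)
    linarith
  · have h0 : 0 < -g 0 := by linarith
    set T := (2 * B + 1) / (-g 0) with hT
    have hTp : 0 < T := by positivity
    obtain ⟨c, hc, hc'⟩ := exists_hasDerivAt_eq_slope f g (by linarith : -T < (0 : ℝ))
      hfc.continuousOn (fun x _ => hf x)
    have h2 : g c < g 0 := hmono hc.2
    rw [hc', zero_sub, neg_neg, div_lt_iff₀ hTp] at h2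
    have h3 : -g 0 * T = 2 * B + 1 := by rw [hT, mul_div_cancel₀ _ h0.ne']
    have := abs_le.mp (hB (-T))
    have := abs_le.mp (hB 0)
    linarith

section

variable {E : Type*} [NormedAddCommGroup E] [InnerProductSpace ℝ E]

lemma hasDerivAt_inv_norm (u : ℝ → E) (u' : E) (t : ℝ) (hu : HasDerivAt u u' t) (h0 : u t ≠ 0)
    (c : ℝ) : HasDerivAt (fun s => c / ‖u s‖) (-(c * (‖u t‖ ^ 3)⁻¹ * ⟪u t, u'⟫)) t := by
  have hn : 0 < ‖u t‖ := norm_pos_iff.mpr h0
  have h1 := hu.norm_sq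
  have h2 := h1.sqrt (by positivity)
  simp only [Real.sqrt_sq (norm_nonneg _)] at h2
  have h3 := (h2.inv hn.ne').const_mul c
  have e : (fun s => c / ‖u s‖) = fun s => c * ((fun s => ‖u s‖)⁻¹ s) := by
    funext s; simp [div_eq_mul_inv]
  rw [e]
  refine h3.congr_deriv ?_
  field_simp

lemma pair_inner (a b : E) (h : a ≠ b) (c : ℝ) :
    c * (‖a - b‖ ^ 3)⁻¹ * (⟪a, a⟫ - 2 * ⟪a, b⟫ + ⟪b, b⟫) = c / ‖a - b‖ := by
  have hn : ‖a - b‖ ≠ 0 := norm_ne_zero_iff.mpr (sub_ne_zero.mpr h)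
  rw [← real_inner_sub_sub_self, real_inner_self_eq_norm_sq]
  field_simp

lemma sum_erase_fin4 {M : Type*} [AddCommMonoid M] (f : Fin 4 → M) :
    (∑ j ∈ Finset.univ.erase (0 : Fin 4), f j = f 1 + f 2 + f 3) ∧
    (∑ j ∈ Finset.univ.erase (1 : Fin 4), f j = f 0 + f 2 + f 3) ∧
    (∑ j ∈ Finset.univ.erase (2 : Fin 4), f j = f 0 + f 1 + f 3) ∧
    (∑ j ∈ Finset.univ.erase (3 : Fin 4), f j = f 0 + f 1 + f 2) := by
  have e0 : Finset.univ.erase (0 : Fin 4) = {1, 2, 3} := by decide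
  have e1 : Finset.univ.erase (1 : Fin 4) = {0, 2, 3} := by decide
  have e2 : Finset.univ.erase (2 : Fin 4) = {0, 1, 3} := by decide
  have e3 : Finset.univ.erase (3 : Fin 4) = {0, 1, 2} := by decide
  rw [e0, e1, e2, e3]
  refine ⟨?_, ?_, ?_, ?_⟩ <;>
  · rw [Finset.sum_insert (by decide), Finset.sum_insert (by decide), Finset.sum_singleton,
      add_assoc]

lemma sum_pairs_fin4 (f : Fin 4 → Fin 4 → ℝ) :
    ∑ i : Fin 4, ∑ j ∈ Finset.univ.filter (fun j => i < j), f i j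
      = f 0 1 + f 0 2 + f 0 3 + f 1 2 + f 1 3 + f 2 3 := by
  simp only [Finset.sum_filter, Fin.sum_univ_four]
  simp
  ring

theorem energy_neg (m : Fin 4 → ℝ) (hm : ∀ i, 0 < m i) (x v : ℝ → Fin 4 → E)
    (hx : ∀ t i, HasDerivAt (fun s => x s i) (v t i) t)
    (hv : ∀ t i, HasDerivAt (fun s => v s i)
      (∑ j ∈ Finset.univ.erase i, (m j / ‖x t j - x t i‖ ^ 3) • (x t j - x t i)) t)
    (hc : ∀ t i j, i ≠ j → x t i ≠ x t j) (B : ℝ) (hB : ∀ t i, ‖x t i‖ ≤ B) (t : ℝ) :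
    (1 / 2 : ℝ) * ∑ i : Fin 4, m i * ‖v t i‖ ^ 2
      - ∑ i : Fin 4, ∑ j ∈ Finset.univ.filter (fun j => i < j), m i * m j / ‖x t i - x t j‖ < 0 := by
  set K : ℝ → ℝ := fun t => (1 / 2 : ℝ) * (m 0 * ‖v t 0‖ ^ 2 + m 1 * ‖v t 1‖ ^ 2
    + m 2 * ‖v t 2‖ ^ 2 + m 3 * ‖v t 3‖ ^ 2) with hK
  set U : ℝ → ℝ := fun t => m 0 * m 1 / ‖x t 0 - x t 1‖ + m 0 * m 2 / ‖x t 0 - x t 2‖
    + m 0 * m 3 / ‖x t 0 - x t 3‖ + m 1 * m 2 / ‖x t 1 - x t 2‖ + m 1 * m 3 / ‖x t 1 - x t 3‖
    + m 2 * m 3 / ‖x t 2 - x t 3‖ with hU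
  rw [sum_pairs_fin4, Fin.sum_univ_four]
  change K t - U t < 0
  have hUpos : ∀ t, 0 < U t := by
    intro t
    have a : ∀ i j, i ≠ j → 0 < m i * m j / ‖x t i - x t j‖ := fun i j h =>
      div_pos (mul_pos (hm i) (hm j)) (norm_pos_iff.mpr (sub_ne_zero.mpr (hc t i j h)))
    have := a 0 1 (by decide)
    have := a 0 2 (by decide)
    have := a 0 3 (by decide)
    have := a 1 2 (by decide)
    have := a 1 3 (by decide)
    have := a 2 3 (by decide)
    simp only [hU]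
    positivity
  have hv0 := fun t => (hv t 0).congr_deriv (sum_erase_fin4 _).1
  have hv1 := fun t => (hv t 1).congr_deriv (sum_erase_fin4 _).2.1
  have hv2 := fun t => (hv t 2).congr_deriv (sum_erase_fin4 _).2.2.1
  have hv3 := fun t => (hv t 3).congr_deriv (sum_erase_fin4 _).2.2.2
  have hH : ∀ t, HasDerivAt (fun t => K t - U t) 0 t := by
    intro t
    have d := fun i j (h : i ≠ j) => hasDerivAt_inv_norm (fun s => x s i - x s j) _ t
      ((hx t i).sub (hx t j)) (sub_ne_zero.mpr (hc t i j h)) (m i * m j)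
    have dK := (((((hv0 t).norm_sq.const_mul (m 0)).add ((hv1 t).norm_sq.const_mul (m 1))).add
      ((hv2 t).norm_sq.const_mul (m 2))).add ((hv3 t).norm_sq.const_mul (m 3))).const_mul
      (1 / 2 : ℝ)
    have dU := (((((d 0 1 (by decide)).add (d 0 2 (by decide))).add (d 0 3 (by decide))).add
      (d 1 2 (by decide))).add (d 1 3 (by decide))).add (d 2 3 (by decide))
    refine (dK.sub dU).congr_deriv ?_
    simp only [inner_add_right, inner_smul_right, inner_sub_right, inner_sub_left,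
      norm_sub_rev (x t 1) (x t 0), norm_sub_rev (x t 2) (x t 0), norm_sub_rev (x t 3) (x t 0),
      norm_sub_rev (x t 2) (x t 1), norm_sub_rev (x t 3) (x t 1), norm_sub_rev (x t 3) (x t 2),
      div_eq_mul_inv, real_inner_comm (v t _) (x t _)]
    ring
  have hconst : ∀ s, K s - U s = K t - U t := fun s =>
    is_const_of_deriv_eq_zero (f := fun t => K t - U t) (fun r => (hH r).differentiableAt)
      (fun r => (hH r).deriv) s t
  by_contra hneg
  push Not at hneg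
  refine not_bounded_of_convex
    (fun t => m 0 * ‖x t 0‖ ^ 2 + m 1 * ‖x t 1‖ ^ 2 + m 2 * ‖x t 2‖ ^ 2 + m 3 * ‖x t 3‖ ^ 2)
    (fun t => m 0 * (2 * ⟪x t 0, v t 0⟫) + m 1 * (2 * ⟪x t 1, v t 1⟫)
      + m 2 * (2 * ⟪x t 2, v t 2⟫) + m 3 * (2 * ⟪x t 3, v t 3⟫))
    (fun t => 4 * K t - 2 * U t) (fun s => ?_) (fun s => ?_) (fun s => ?_)
    ((m 0 + m 1 + m 2 + m 3) * B ^ 2) (fun s => ?_)
  · exact ((((hx s 0).norm_sq.const_mul (m 0)).add ((hx s 1).norm_sq.const_mul (m 1))).add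
      ((hx s 2).norm_sq.const_mul (m 2))).add ((hx s 3).norm_sq.const_mul (m 3))
  · have d := ((((((hx s 0).inner ℝ (hv0 s)).const_mul 2).const_mul (m 0)).add
      ((((hx s 1).inner ℝ (hv1 s)).const_mul 2).const_mul (m 1))).add
      ((((hx s 2).inner ℝ (hv2 s)).const_mul 2).const_mul (m 2))).add
      ((((hx s 3).inner ℝ (hv3 s)).const_mul 2).const_mul (m 3))
    refine d.congr_deriv ?_
    have p := fun i j (h : i ≠ j) => pair_inner (x s i) (x s j) (hc s i j h) (m i * m j)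
    simp only [hK, hU, inner_add_right, inner_smul_right, inner_sub_right,
      norm_sub_rev (x s 1) (x s 0), norm_sub_rev (x s 2) (x s 0), norm_sub_rev (x s 3) (x s 0),
      norm_sub_rev (x s 2) (x s 1), norm_sub_rev (x s 3) (x s 1), norm_sub_rev (x s 3) (x s 2),
      real_inner_comm (x s 0) (x s 1), real_inner_comm (x s 0) (x s 2),
      real_inner_comm (x s 0) (x s 3), real_inner_comm (x s 1) (x s 2),
      real_inner_comm (x s 1) (x s 3), real_inner_comm (x s 2) (x s 3),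
      real_inner_self_eq_norm_sq (v s _)]
    linear_combination (-2) * (p 0 1 (by decide) + p 0 2 (by decide) + p 0 3 (by decide)
      + p 1 2 (by decide) + p 1 3 (by decide) + p 2 3 (by decide))
  · have := hconst s
    have := hUpos s
    show 0 < 4 * K s - 2 * U s
    linarith
  · have a : ∀ i, m i * ‖x s i‖ ^ 2 ≤ m i * B ^ 2 := fun i =>
      mul_le_mul_of_nonneg_left (pow_le_pow_left₀ (norm_nonneg _) (hB s i) 2) (hm i).le
    have b : ∀ i, 0 ≤ m i * ‖x s i‖ ^ 2 := fun i => mul_nonneg (hm i).le (sq_nonneg _)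
    rw [abs_of_nonneg (by linarith [b 0, b 1, b 2, b 3])]
    linarith [a 0, a 1, a 2, a 3]

lemma contDiff_two_of_deriv (x v a : ℝ → E) (hx : ∀ t, HasDerivAt x (v t) t)
    (hv : ∀ t, HasDerivAt v (a t) t) (ha : Continuous a) : ContDiff ℝ 2 x := by
  have e1 : deriv x = v := funext fun t => (hx t).deriv
  have e2 : deriv v = a := funext fun t => (hv t).deriv
  have h1 : ContDiff ℝ 1 v := by
    rw [contDiff_one_iff_deriv, e2]
    exact ⟨fun t => (hv t).differentiableAt, ha⟩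
  have : (2 : WithTop ℕ∞) = 1 + 1 := by norm_num
  rw [this, contDiff_succ_iff_deriv, e1]
  exact ⟨fun t => (hx t).differentiableAt, by simp, h1⟩

end

end Pool.Agent.Lib.MP_ba391d_an
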