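import Pool.Agent.Lib.MP_ba391d_an.Space
import Pool.Agent.Lib.MP_ba391d_an.Energy

/-! Assembly: a bounded never coplanar solution of the spatial four-body problem. -/

set_option autoImplicit false

open scoped Topology

noncomputable section

namespace Pool.Agent.Lib.MP_ba391d_an

lemma continuous_ff (u : ℝ → E3) (hu : Continuous u) (h : ∀ t, u t ≠ 0) :
    Continuous fun t => ff (u t) := by
  unfold ff
  exact ((hu.norm.pow 3).inv₀ fun t => pow_ne_zero _ (norm_ne_zero_iff.mpr (h t))).smul hu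

lemma smul_ff (c : ℝ) (d : E3) : (c / ‖d‖ ^ 3) • d = c • ff d := by
  rw [ff, div_eq_mul_inv, mul_smul]

lemma affineIndependent_of_det (o a b c : E3) (h : det3 a b c ≠ 0) :
    AffineIndependent ℝ ![o, o + a, o + b, o + c] := by
  rw [affineIndependent_iff_of_fintype]
  intro w hw hs i
  rw [Finset.weightedVSub_eq_linear_combination _ hw] at hs
  simp only [Fin.sum_univ_four, Matrix.cons_val_zero, Matrix.cons_val_one, Matrix.cons_val] at hw hs
  have e0 := congrArg (fun u : E3 => u 0) hs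
  have e1 := congrArg (fun u : E3 => u 1) hs
  have e2 := congrArg (fun u : E3 => u 2) hs
  simp only [PiLp.add_apply, PiLp.smul_apply, smul_eq_mul, PiLp.zero_apply] at e0 e1 e2
  have f0 : w 1 * a 0 + w 2 * b 0 + w 3 * c 0 = 0 := by linear_combination e0 - o 0 * hw
  have f1 : w 1 * a 1 + w 2 * b 1 + w 3 * c 1 = 0 := by linear_combination e1 - o 1 * hw
  have f2 : w 1 * a 2 + w 2 * b 2 + w 3 * c 2 = 0 := by linear_combination e2 - o 2 * hw
  have w1 : w 1 = 0 := by
    apply (mul_eq_zero.mp (_ : w 1 * det3 a b c = 0)).resolve_right h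
    unfold det3
    linear_combination (b 1 * c 2 - b 2 * c 1) * f0 + (b 2 * c 0 - b 0 * c 2) * f1
      + (b 0 * c 1 - b 1 * c 0) * f2
  have w2 : w 2 = 0 := by
    apply (mul_eq_zero.mp (_ : w 2 * det3 a b c = 0)).resolve_right h
    unfold det3
    linear_combination (c 1 * a 2 - c 2 * a 1) * f0 + (c 2 * a 0 - c 0 * a 2) * f1
      + (c 0 * a 1 - c 1 * a 0) * f2
  have w3 : w 3 = 0 := by
    apply (mul_eq_zero.mp (_ : w 3 * det3 a b c = 0)).resolve_right h
    unfold det3
    linear_combination (a 1 * b 2 - a 2 * b 1) * f0 + (a 2 * b 0 - a 0 * b 2) * f1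
      + (a 0 * b 1 - a 1 * b 0) * f2
  have w0 : w 0 = 0 := by linarith
  fin_cases i
  · exact w0
  · exact w1
  · exact w2
  · exact w3

theorem bounded_solution : ∃ (m : Fin 4 → ℝ) (x v : ℝ → Fin 4 → E3) (B : ℝ), (∀ i, 0 < m i) ∧
    (∀ t i, HasDerivAt (fun s => x s i) (v t i) t) ∧
    (∀ t i, HasDerivAt (fun s => v s i)
      (∑ j ∈ Finset.univ.erase i, (m j / ‖x t j - x t i‖ ^ 3) • (x t j - x t i)) t) ∧
    (∀ t i, ‖x t i‖ ≤ B) ∧ ∀ t, AffineIndependent ℝ (x t) := by
  obtain ⟨m, μ, B, r0, r1, r2, v0, v1, v2, hm, hμ, d0, d1, d2, a0, a1, a2, hB, hdet⟩ :=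
    relative_solution
  set κ : ℝ := -(μ / (m + 3 * μ)) with hκ
  have hM : m + 3 * μ ≠ 0 := by positivity
  have hκ' : κ * (m + 3 * μ) = -μ := by rw [hκ]; field_simp
  have dc : ∀ t, HasDerivAt (fun s => κ • (r0 s + r1 s + r2 s)) (κ • (v0 t + v1 t + v2 t)) t :=
    fun t => (((d0 t).add (d1 t)).add (d2 t)).const_smul κ
  have ac : ∀ t, HasDerivAt (fun s => κ • (v0 s + v1 s + v2 s))
      (μ • (ff (r0 t) + ff (r1 t) + ff (r2 t))) t := by
    intro t
    refine ((((a0 t).add (a1 t)).add (a2 t)).const_smul κ).congr_deriv ?_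
    simp only [acc]
    rw [← neg_sub (r1 t) (r0 t), ← neg_sub (r2 t) (r0 t), ← neg_sub (r2 t) (r1 t), ff_neg, ff_neg,
      ff_neg]
    linear_combination (norm := module) (-1 : ℝ) • (hκ' • (ff (r0 t) + ff (r1 t) + ff (r2 t)))
  refine ⟨![m, μ, μ, μ],
    fun t => ![κ • (r0 t + r1 t + r2 t), κ • (r0 t + r1 t + r2 t) + r0 t,
      κ • (r0 t + r1 t + r2 t) + r1 t, κ • (r0 t + r1 t + r2 t) + r2 t],
    fun t => ![κ • (v0 t + v1 t + v2 t), κ • (v0 t + v1 t + v2 t) + v0 t,
      κ • (v0 t + v1 t + v2 t) + v1 t, κ • (v0 t + v1 t + v2 t) + v2 t],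
    |κ| * (3 * B) + B, fun i => ?_, fun t i => ?_, fun t i => ?_, fun t i => ?_,
    fun t => affineIndependent_of_det _ _ _ _ (hdet t)⟩
  · fin_cases i <;> simp [hm, hμ]
  · fin_cases i
    · exact dc t
    · exact (dc t).add (d0 t)
    · exact (dc t).add (d1 t)
    · exact (dc t).add (d2 t)
  · fin_cases i
    · refine (ac t).congr_deriv ?_
      refine Eq.trans ?_ (sum_erase_fin4 _).1.symm
      simp only [smul_ff, Fin.zero_eta, Matrix.cons_val_zero, Matrix.cons_val_one, Matrix.cons_val,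
        add_sub_cancel_left]
      module
    · refine ((ac t).add (a0 t)).congr_deriv ?_
      refine Eq.trans ?_ (sum_erase_fin4 _).2.1.symm
      simp only [smul_ff, Fin.mk_one, Matrix.cons_val_zero, Matrix.cons_val_one, Matrix.cons_val,
        sub_add_cancel_left, add_sub_add_left_eq_sub, ff_neg, acc]
      module
    · refine ((ac t).add (a1 t)).congr_deriv ?_
      refine Eq.trans ?_ (sum_erase_fin4 _).2.2.1.symm
      simp only [smul_ff, Fin.reduceFinMk, Matrix.cons_val_zero, Matrix.cons_val_one,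
        Matrix.cons_val, sub_add_cancel_left, add_sub_add_left_eq_sub, ff_neg, acc]
      module
    · refine ((ac t).add (a2 t)).congr_deriv ?_
      refine Eq.trans ?_ (sum_erase_fin4 _).2.2.2.symm
      simp only [smul_ff, Fin.reduceFinMk, Matrix.cons_val_zero, Matrix.cons_val_one,
        Matrix.cons_val, sub_add_cancel_left, add_sub_add_left_eq_sub, ff_neg, acc]
      module
  · obtain ⟨b0, b1, b2⟩ := hB t
    have hB0 : 0 ≤ B := le_trans (norm_nonneg _) b0
    have hc : ‖κ • (r0 t + r1 t + r2 t)‖ ≤ |κ| * (3 * B) := by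
      rw [norm_smul, Real.norm_eq_abs]
      refine mul_le_mul_of_nonneg_left ?_ (abs_nonneg _)
      have := norm_add₃_le (a := r0 t) (b := r1 t) (c := r2 t)
      linarith
    fin_cases i
    · exact le_trans hc (by linarith)
    · exact (norm_add_le _ _).trans (add_le_add hc b0)
    · exact (norm_add_le _ _).trans (add_le_add hc b1)
    · exact (norm_add_le _ _).trans (add_le_add hc b2)

theorem main_solution : ∃ m : Fin 4 → ℝ, (∀ i, 0 < m i) ∧
      ∃ q : ℝ → Fin 4 → EuclideanSpace ℝ (Fin 3),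
        ContDiff ℝ 2 q ∧
        (∀ t : ℝ, ∀ i j : Fin 4, i ≠ j → q t i ≠ q t j) ∧
        (∀ t : ℝ, ∀ i : Fin 4,
          deriv (fun s => deriv (fun r => q r i) s) t =
            ∑ j ∈ Finset.univ.erase i,
              (m j / ‖q t j - q t i‖ ^ 3) • (q t j - q t i)) ∧
        (∀ t : ℝ,
          (1 / 2 : ℝ) * ∑ i : Fin 4, m i * ‖deriv (fun r => q r i) t‖ ^ 2
            - ∑ i : Fin 4, ∑ j ∈ Finset.univ.filter (fun j => i < j),
                m i * m j / ‖q t i - q t j‖ < 0) ∧
        (∀ t : ℝ, AffineIndependent ℝ (q t)) ∧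
        ∃ B : ℝ, ∀ (t : ℝ) (i : Fin 4), ‖q t i‖ ≤ B := by
  obtain ⟨m, x, v, B, hm, hx, hv, hB, haff⟩ := bounded_solution
  have hc : ∀ t i j, i ≠ j → x t i ≠ x t j := fun t i j h => (haff t).injective.ne h
  have hd : ∀ i, (fun s => deriv (fun r => x r i) s) = fun s => v s i :=
    fun i => funext fun s => (hx s i).deriv
  have hxc : ∀ i, Continuous fun s => x s i := fun i =>
    continuous_iff_continuousAt.mpr fun t => (hx t i).continuousAt
  refine ⟨m, hm, x, ?_, hc, fun t i => ?_, fun t => ?_, haff, B, hB⟩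
  · rw [contDiff_pi]
    intro i
    refine contDiff_two_of_deriv _ (fun s => v s i) _ (fun t => hx t i) (fun t => hv t i) ?_
    refine continuous_finsetSum _ fun j hj => ?_
    simp only [smul_ff]
    exact (continuous_ff _ ((hxc j).sub (hxc i))
      fun t => sub_ne_zero.mpr (hc t j i (Finset.ne_of_mem_erase hj))).const_smul (m j)
  · rw [hd i]
    exact (hv t i).deriv
  · simp only [(hx t _).deriv]
    exact energy_neg m hm x v hx hv hc B hB t

end Pool.Agent.Lib.MP_ba391d_an
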