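import Mathlib

/-! Fourier tools on the circle of length 2π. -/

set_option autoImplicit false

open Complex MeasureTheory
open scoped Real ComplexConjugate BoundedContinuousFunction Topology

noncomputable section

namespace Pool.Agent.Lib.MP_ba391d_an

instance factTwoPi : Fact (0 < 2 * π) := ⟨Real.two_pi_pos⟩

/-- The circle of length `2π`. -/
abbrev Cir : Type := AddCircle (2 * π)

/-- Continuous complex functions on the circle. -/
abbrev FA : Type := C(Cir, ℂ)

/-- The Fourier monomial. -/
abbrev ee (n : ℤ) : FA := fourier n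

lemma integrable_FA (f : FA) : Integrable (fun x => f x) (AddCircle.haarAddCircle (T := 2 * π)) :=
  f.continuous.integrable_of_hasCompactSupport (HasCompactSupport.of_compactSpace _)

lemma norm_fourierCoeff_le (f : FA) (n : ℤ) : ‖fourierCoeff (fun x => f x) n‖ ≤ ‖f‖ := by
  unfold fourierCoeff
  have h : ∀ x : Cir, ‖(fourier (-n) x : ℂ) • f x‖ ≤ ‖f‖ := by
    intro x
    rw [norm_smul, fourier_apply, Circle.norm_coe, one_mul]
    exact f.norm_coe_le_norm x
  have := norm_integral_le_of_norm_le_const (μ := AddCircle.haarAddCircle (T := 2 * π))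
    (Filter.Eventually.of_forall h)
  simpa using this

/-- The `n`-th Fourier coefficient as a continuous linear functional. -/
def co (n : ℤ) : FA →L[ℂ] ℂ :=
  LinearMap.mkContinuous
    { toFun := fun f => fourierCoeff (fun x => f x) n
      map_add' := fun f g => by
        have := fourierCoeff.add (integrable_FA f) (integrable_FA g)
        exact congrFun this n
      map_smul' := fun c f => fourierCoeff.const_smul (fun x => f x) c n }
    1 (fun f => by simpa using norm_fourierCoeff_le f n)

lemma co_apply (n : ℤ) (f : FA) : co n f = fourierCoeff (fun x => f x) n := rfl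

lemma co_eq_integral (n : ℤ) (f : FA) :
    co n f = ∫ x : Cir, fourier (-n) x * f x ∂AddCircle.haarAddCircle := rfl

lemma norm_co_le (n : ℤ) (f : FA) : ‖co n f‖ ≤ ‖f‖ := norm_fourierCoeff_le f n

lemma co_ee (n m : ℤ) : co n (ee m) = if n = m then 1 else 0 := by
  have := congrFun (fourierCoeff_fourier (T := 2 * π) m) n
  rw [co_apply]
  rw [Pi.single_apply] at this
  exact this

lemma ee_zero : ee 0 = 1 := by
  ext x; simp

lemma ee_mul (m n : ℤ) : ee m * ee n = ee (m + n) := by
  ext x; simp only [ContinuousMap.mul_apply, fourier_add]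

lemma star_ee (m : ℤ) : star (ee m) = ee (-m) := by
  ext x; simp only [ContinuousMap.star_apply, fourier_neg]; rfl

lemma co_one (n : ℤ) : co n (1 : FA) = if n = 0 then 1 else 0 := by
  rw [← ee_zero, co_ee]

lemma co_real_smul (n : ℤ) (r : ℝ) (f : FA) : co n (r • f) = r * co n f := by
  have : r • f = (r : ℂ) • f := by ext x; simp
  rw [this, map_smul, smul_eq_mul]

lemma FA_ext {f g : FA} (h : ∀ n, co n f = co n g) : f = g := by
  have h0 : fourierCoeff (fun x => (f - g) x) = 0 := by
    funext n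
    rw [← co_apply, map_sub, h n, sub_self]; rfl
  have hs : Summable (fourierCoeff (fun x => (f - g) x)) := by
    rw [h0]; exact summable_zero
  have := hasSum_fourier_series_of_summable (f := f - g) hs
  have h1 : (fun i => fourierCoeff (⇑(f - g)) i • (fourier i : FA)) = fun _ => 0 := by
    funext i
    have : fourierCoeff (⇑(f - g)) i = 0 := congrFun h0 i
    rw [this, zero_smul]
  rw [h1] at this
  exact sub_eq_zero.mp (this.unique hasSum_zero)

lemma co_star (n : ℤ) (f : FA) : co n (star f) = conj (co (-n) f) := by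
  rw [co_eq_integral, co_eq_integral, ← integral_conj]
  congr 1
  funext x
  simp only [ContinuousMap.star_apply, neg_neg, map_mul, fourier_neg]
  rfl

/-- Reflection `f (-x)`. -/
def refl (f : FA) : FA := f.comp ⟨fun x => -x, continuous_neg⟩

@[simp] lemma refl_apply (f : FA) (x : Cir) : refl f x = f (-x) := rfl

lemma fourier_neg_arg (n : ℤ) (x : Cir) : fourier n (-x) = fourier (-n) x := by
  rw [fourier_apply, fourier_apply, smul_neg, neg_smul]

lemma co_refl (n : ℤ) (f : FA) : co n (refl f) = co (-n) f := by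
  rw [co_eq_integral, co_eq_integral,
    ← integral_neg_eq_self (fun x : Cir => fourier (- -n) x * f x) AddCircle.haarAddCircle]
  congr 1
  funext x
  rw [refl_apply, fourier_neg_arg, neg_neg]

/-- Translation `f (x + a)`. -/
def shift (a : ℝ) (f : FA) : FA := f.comp ⟨fun x => x + (a : Cir), by fun_prop⟩

@[simp] lemma shift_apply (a : ℝ) (f : FA) (x : Cir) : shift a f x = f (x + (a : Cir)) := rfl

lemma fourier_add_arg (n : ℤ) (x y : Cir) : fourier n (x + y) = fourier n x * fourier n y := by
  rw [fourier_apply, fourier_apply, fourier_apply, smul_add, AddCircle.toCircle_add, Circle.coe_mul]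

lemma co_shift (n : ℤ) (a : ℝ) (f : FA) :
    co n (shift a f) = Complex.exp (n * a * I) * co n f := by
  rw [co_eq_integral, co_eq_integral,
    ← integral_add_right_eq_self (fun x : Cir => fourier (-n) x * f x) (a : Cir),
    ← integral_const_mul]
  congr 1
  funext x
  rw [shift_apply, fourier_add_arg, fourier_coe_apply]
  have hpi : (π : ℂ) ≠ 0 := by exact_mod_cast Real.pi_ne_zero
  have : cexp (n * a * I) * cexp (2 * π * I * ((-n : ℤ) : ℂ) * a / ((2 * π : ℝ) : ℂ)) = 1 := by
    rw [← Complex.exp_add]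
    have : (n * a * I + 2 * π * I * ((-n : ℤ) : ℂ) * a / ((2 * π : ℝ) : ℂ) : ℂ) = 0 := by
      push_cast; field_simp; ring
    rw [this, Complex.exp_zero]
  linear_combination (-(fourier (-n) x * f (x + (a : Cir)))) * this

lemma im_co_eq_zero {f : FA} (h : ∀ x, f (-x) = conj (f x)) (n : ℤ) : (co n f).im = 0 := by
  have h1 : refl f = star f := by
    ext x; rw [refl_apply, h]; rfl
  have h2 := co_refl (-n) f
  rw [h1, co_star, neg_neg] at h2
  exact Complex.conj_eq_iff_im.mp h2

lemma co_neg_of_even {f : FA} (h : ∀ x, f (-x) = f x) (n : ℤ) : co (-n) f = co n f := by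
  have h1 : refl f = f := by ext x; rw [refl_apply, h]
  rw [← co_refl, h1]

lemma co_neg_of_odd {f : FA} (h : ∀ x, f (-x) = -f x) (n : ℤ) : co (-n) f = -co n f := by
  have h1 : refl f = -f := by ext x; rw [refl_apply, h]; rfl
  rw [← co_refl, h1, map_neg]

lemma co_eq_intervalIntegral (n : ℤ) (f : FA) :
    co n f = (1 / (2 * π) : ℝ) • ∫ x in (0 : ℝ)..(2 * π), fourier (-n) (x : Cir) * f (x : Cir) := by
  have := fourierCoeff_eq_intervalIntegral (T := 2 * π) (fun x => f x) n 0
  rw [zero_add] at this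
  exact this

lemma hasDerivAt_ee (n : ℤ) (t : ℝ) :
    HasDerivAt (fun s : ℝ => fourier n (s : Cir)) (I * n * fourier n (t : Cir)) t := by
  have hpi : (π : ℂ) ≠ 0 := by exact_mod_cast Real.pi_ne_zero
  have := hasDerivAt_fourier (2 * π) n t
  have e : (2 * π * I * n / ((2 * π : ℝ) : ℂ) : ℂ) = I * n := by
    push_cast; field_simp
  rw [e] at this
  exact this

lemma continuous_coe_comp (g : FA) : Continuous fun s : ℝ => g (s : Cir) :=
  g.continuous.comp (AddCircle.continuous_mk' _)

/-- Antiderivative of a continuous function of mean zero. -/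
lemma exists_antideriv (g : FA) (h0 : co 0 g = 0) :
    ∃ H : FA, (∀ t : ℝ, HasDerivAt (fun s : ℝ => H (s : Cir)) (g (t : Cir)) t) ∧
      co 0 H = 0 ∧ ∀ n : ℤ, I * n * co n H = co n g := by
  have hgc : Continuous fun s : ℝ => g (s : Cir) := continuous_coe_comp g
  set h : ℝ → ℂ := fun t => ∫ s in (0 : ℝ)..t, g (s : Cir) with hh
  have hd : ∀ t : ℝ, HasDerivAt h (g (t : Cir)) t := fun t =>
    intervalIntegral.integral_hasDerivAt_right (hgc.intervalIntegrable _ _)
      hgc.aestronglyMeasurable.stronglyMeasurableAtFilter hgc.continuousAt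
  have hgp : Function.Periodic (fun s : ℝ => g (s : Cir)) (2 * π) := fun s => by
    simp only [AddCircle.coe_add_period]
  have hT : h (2 * π) = 0 := by
    rw [co_eq_intervalIntegral] at h0
    simp only [neg_zero, fourier_zero, one_mul, smul_eq_zero, one_div, inv_eq_zero] at h0
    rcases h0 with h0 | h0
    · exact absurd h0 Real.two_pi_pos.ne'
    · exact h0
  have hp : Function.Periodic h (2 * π) := fun t => by
    have := hgp.intervalIntegral_add_eq_add 0 t (fun a b => hgc.intervalIntegrable a b)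
    rw [zero_add] at this
    simp only [hh] at hT ⊢
    rw [this, hT, add_zero]
  have hcont : Continuous h := continuous_iff_continuousAt.mpr fun t => (hd t).continuousAt
  have hl : Continuous hp.lift := by
    rw [(QuotientAddGroup.isQuotientMap_mk (AddSubgroup.zmultiples (2 * π))).continuous_iff]
    exact hcont
  set H0 : FA := ⟨hp.lift, hl⟩ with hH0
  have hH0c : ∀ s : ℝ, H0 (s : Cir) = h s := fun s => rfl
  have key : ∀ n : ℤ, I * n * co n H0 = co n g := by
    intro n
    rw [co_eq_intervalIntegral, co_eq_intervalIntegral]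
    have := intervalIntegral.integral_mul_deriv_eq_deriv_mul (a := 0) (b := 2 * π)
      (u := fun s : ℝ => fourier (-n) (s : Cir)) (v := h)
      (u' := fun s : ℝ => I * ((-n : ℤ) : ℂ) * fourier (-n) (s : Cir))
      (v' := fun s : ℝ => g (s : Cir))
      (fun x _ => hasDerivAt_ee (-n) x) (fun x _ => hd x)
      ((continuous_const.mul (continuous_coe_comp (ee (-n)))).intervalIntegrable _ _)
      (hgc.intervalIntegrable _ _)
    rw [this, hT]
    have h00 : h 0 = 0 := by simp [hh]
    rw [h00]
    simp only [hH0c, mul_assoc, intervalIntegral.integral_const_mul, real_smul]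
    push_cast
    ring
  refine ⟨H0 - co 0 H0 • 1, fun t => ?_, ?_, fun n => ?_⟩
  · have := (hd t).sub_const (co 0 H0)
    have e : (fun s : ℝ => (H0 - co 0 H0 • (1 : FA)) (s : Cir)) = fun s => h s - co 0 H0 := by
      funext s
      simp [hH0c]
    rw [e]; exact this
  · simp [co_one]
  · rw [map_sub, map_smul, co_one, mul_sub, key]
    split_ifs with hn
    · simp [hn]
    · simp

/-- The weight `1 / (1 + n²)`. -/
def wt (n : ℤ) : ℝ := 1 / (1 + (n : ℝ) ^ 2)

lemma wt_pos (n : ℤ) : 0 < wt n := by unfold wt; positivity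

lemma wt_le_one (n : ℤ) : wt n ≤ 1 := by
  unfold wt
  rw [div_le_one (by positivity)]
  nlinarith [sq_nonneg (n : ℝ)]

lemma wt_neg (n : ℤ) : wt (-n) = wt n := by simp [wt]

lemma summable_wt : Summable wt := by
  have h1 : Summable fun n : ℤ => 1 / (n : ℝ) ^ 2 :=
    Real.summable_one_div_int_pow.mpr (by norm_num)
  have h2 : Summable fun n : ℤ => (if n = 0 then (1 : ℝ) else 0) := (hasSum_ite_eq 0 1).summable
  refine Summable.of_nonneg_of_le (fun n => (wt_pos n).le) (fun n => ?_) (h1.add h2)
  split_ifs with hn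
  · simp [hn, wt]
  · unfold wt
    have : (0 : ℝ) < (n : ℝ) ^ 2 := by positivity
    rw [add_zero]
    exact one_div_le_one_div_of_le this (by linarith)

section EvCo

variable {ι : Type} [TopologicalSpace ι] [DiscreteTopology ι]

omit [DiscreteTopology ι] in
lemma Ev_norm_le (φ : ℤ → ι) (w : ℤ → ℂ) (hw : ∀ n, ‖w n‖ ≤ 1) (b : ι →ᵇ ℝ) (n : ℤ) :
    ‖(w n * wt n * b (φ n)) • ee n‖ ≤ wt n * ‖b‖ := by
  rw [norm_smul, fourier_norm, mul_one, norm_mul, norm_mul, Complex.norm_real, Complex.norm_real,
    Real.norm_of_nonneg (wt_pos n).le]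
  have h1 := b.norm_coe_le_norm (φ n)
  have h2 := hw n
  have h3 := wt_pos n
  calc ‖w n‖ * wt n * ‖b (φ n)‖ ≤ 1 * wt n * ‖b‖ := by gcongr
    _ = wt n * ‖b‖ := by ring

omit [DiscreteTopology ι] in
lemma Ev_summable (φ : ℤ → ι) (w : ℤ → ℂ) (hw : ∀ n, ‖w n‖ ≤ 1) (b : ι →ᵇ ℝ) :
    Summable fun n => (w n * wt n * b (φ n)) • ee n :=
  Summable.of_norm_bounded (summable_wt.mul_right ‖b‖) (Ev_norm_le φ w hw b)

omit [DiscreteTopology ι] in
/-- Evaluation of a weighted bounded sequence as a Fourier series. -/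
def Ev (φ : ℤ → ι) (w : ℤ → ℂ) (hw : ∀ n, ‖w n‖ ≤ 1) : (ι →ᵇ ℝ) →L[ℝ] FA :=
  LinearMap.mkContinuous
    { toFun := fun b => ∑' n, (w n * wt n * b (φ n)) • ee n
      map_add' := fun b c => by
        rw [← (Ev_summable φ w hw b).tsum_add (Ev_summable φ w hw c)]
        congr 1; funext n
        rw [← add_smul]; congr 1; simp only [BoundedContinuousFunction.add_apply]; push_cast; ring
      map_smul' := fun r b => by
        rw [RingHom.id_apply, ← (Ev_summable φ w hw b).tsum_const_smul r]
        congr 1; funext n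
        rw [← smul_assoc]; congr 1
        simp only [BoundedContinuousFunction.smul_apply, smul_eq_mul, real_smul]; push_cast; ring }
    (∑' n, wt n) (fun b => by
      have := tsum_of_norm_bounded (summable_wt.mul_right ‖b‖).hasSum (Ev_norm_le φ w hw b)
      rw [tsum_mul_right] at this
      exact this)

omit [DiscreteTopology ι] in
lemma co_Ev (φ : ℤ → ι) (w : ℤ → ℂ) (hw : ∀ n, ‖w n‖ ≤ 1) (b : ι →ᵇ ℝ) (n : ℤ) :
    co n (Ev φ w hw b) = w n * wt n * b (φ n) := by
  have h1 := (co n).hasSum (Ev_summable φ w hw b).hasSum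
  have h2 : (fun m => co n ((w m * wt m * b (φ m)) • ee m)) =
      fun m => if m = n then w n * wt n * b (φ n) else 0 := by
    funext m
    rw [map_smul, co_ee]
    by_cases h : m = n
    · simp [h]
    · simp [h, Ne.symm h]
  simp only [h2] at h1
  exact h1.unique (hasSum_ite_eq n _)

/-- Real parts of weighted Fourier coefficients as a bounded sequence. -/
def Co (ψ : ι → ℤ) (w : ℤ → ℂ) (hw : ∀ n, ‖w n‖ ≤ 1) : FA →L[ℝ] (ι →ᵇ ℝ) :=
  LinearMap.mkContinuous
    { toFun := fun f => BoundedContinuousFunction.ofNormedAddCommGroupDiscrete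
        (fun i => (w (ψ i) * co (ψ i) f).re) ‖f‖ (fun i => by
          refine (Complex.abs_re_le_norm _).trans ?_
          rw [norm_mul]
          calc ‖w (ψ i)‖ * ‖co (ψ i) f‖ ≤ 1 * ‖f‖ := by
                gcongr
                · exact hw _
                · exact norm_co_le _ _
            _ = ‖f‖ := one_mul _)
      map_add' := fun f g => by
        ext i; simp [mul_add]
      map_smul' := fun r f => by
        ext i
        simp only [BoundedContinuousFunction.coe_ofNormedAddCommGroupDiscrete, co_real_smul,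
          RingHom.id_apply, BoundedContinuousFunction.smul_apply, smul_eq_mul]
        rw [mul_left_comm, Complex.re_ofReal_mul] }
    1 (fun f => by
      rw [one_mul]
      refine (BoundedContinuousFunction.norm_le (norm_nonneg f)).mpr fun i => ?_
      refine (Complex.abs_re_le_norm _).trans ?_
      rw [norm_mul]
      calc ‖w (ψ i)‖ * ‖co (ψ i) f‖ ≤ 1 * ‖f‖ := by
            gcongr
            · exact hw _
            · exact norm_co_le _ _
        _ = ‖f‖ := one_mul _)

lemma Co_apply (ψ : ι → ℤ) (w : ℤ → ℂ) (hw : ∀ n, ‖w n‖ ≤ 1) (f : FA) (i : ι) :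
    Co ψ w hw f i = (w (ψ i) * co (ψ i) f).re := rfl

end EvCo

/-- Pointwise conjugation as a real continuous linear map. -/
def cj : FA →L[ℝ] FA := (starL' ℝ : FA ≃L[ℝ] FA)

lemma cj_eq (f : FA) : cj f = star f := rfl

@[simp] lemma cj_apply (f : FA) (x : Cir) : cj f x = conj (f x) := rfl

lemma co_cj (n : ℤ) (f : FA) : co n (cj f) = conj (co (-n) f) := co_star n f

/-- Perturbation lemma: a surjective affine problem at `ε = 0` can be continued. -/
lemma exists_continuation {X Y : Type*} [NormedAddCommGroup X] [NormedSpace ℝ X]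
    [CompleteSpace X] [NormedAddCommGroup Y] [NormedSpace ℝ Y] [CompleteSpace Y]
    (Ψ : ℝ × X → Y) (hΨ : ContDiff ℝ 1 Ψ) (L : X → Y) (u0 : X)
    (haff : ∀ v, Ψ (0, u0 + v) = L v) (hhom : ∀ (t : ℝ) v, L (t • v) = t • L v)
    (hsurj : Function.Surjective L) (V : Set (ℝ × X)) (hV : V ∈ 𝓝 ((0 : ℝ), u0)) :
    ∃ p ∈ V, 0 < p.1 ∧ Ψ p = 0 := by
  have hs : HasStrictFDerivAt Ψ (fderiv ℝ Ψ (0, u0)) (0, u0) :=
    (hΨ.contDiffAt).hasStrictFDerivAt (by norm_num)
  set D := fderiv ℝ Ψ (0, u0) with hD
  have hDv : ∀ v, D (0, v) = L v := by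
    intro v
    have hc : HasDerivAt (fun t : ℝ => ((0 : ℝ), u0 + t • v)) ((0 : ℝ), v) 0 := by
      refine (hasDerivAt_const _ _).prodMk ?_
      simpa using ((hasDerivAt_id (0 : ℝ)).smul_const v).const_add u0
    have h1 : HasDerivAt (fun t : ℝ => Ψ (0, u0 + t • v)) (D (0, v)) 0 := by
      have hs' : HasFDerivAt Ψ D ((0 : ℝ), u0 + (0 : ℝ) • v) := by simpa using hs.hasFDerivAt
      exact hs'.comp_hasDerivAt (0 : ℝ) hc
    have h2 : HasDerivAt (fun t : ℝ => Ψ (0, u0 + t • v)) (L v) 0 := by
      simp only [haff, hhom]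
      simpa using (hasDerivAt_id (0 : ℝ)).smul_const (L v)
    exact h1.unique h2
  have h0 : Ψ (0, u0) = 0 := by
    have := haff ((0 : ℝ) • u0)
    rw [hhom] at this
    simpa using this
  have hF : HasStrictFDerivAt (fun p : ℝ × X => (p.1, Ψ p))
      ((ContinuousLinearMap.fst ℝ ℝ X).prod D) (0, u0) :=
    (hasStrictFDerivAt_fst).prodMk hs
  have hr : ((ContinuousLinearMap.fst ℝ ℝ X).prod D).range = ⊤ := by
    rw [LinearMap.range_eq_top]
    rintro ⟨a, y⟩
    obtain ⟨v, hv⟩ := hsurj (y - D (a, 0))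
    refine ⟨(a, v), ?_⟩
    have : D (a, v) = D (a, 0) + D (0, v) := by rw [← map_add]; simp
    simp [this, hDv, hv]
  have hm := hF.map_nhds_eq_of_surj hr
  have himg : (fun p : ℝ × X => (p.1, Ψ p)) '' V ∈ 𝓝 ((0 : ℝ), (0 : Y)) := by
    have := Filter.image_mem_map (m := fun p : ℝ × X => (p.1, Ψ p)) hV
    rw [hm] at this
    simpa [h0] using this
  have hc : Filter.Tendsto (fun e : ℝ => (e, (0 : Y))) (𝓝[>] 0) (𝓝 ((0 : ℝ), (0 : Y))) :=
    ((continuous_id.prodMk continuous_const).tendsto 0).mono_left nhdsWithin_le_nhds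
  obtain ⟨e, ⟨p, hpV, hp⟩, he⟩ := ((hc.eventually himg).and self_mem_nhdsWithin).exists
  simp only [Prod.mk.injEq] at hp
  exact ⟨p, hpV, by rw [hp.1]; exact he, hp.2⟩

end Pool.Agent.Lib.MP_ba391d_an
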