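import Pool.Agent.Lib.MP_ba391d_an.System

/-! The linear part of the system at `ε = 0` and its surjectivity. -/

set_option autoImplicit false

open Complex
open scoped Real ComplexConjugate BoundedContinuousFunction Topology

noncomputable section

namespace Pool.Agent.Lib.MP_ba391d_an

lemma wt_one : wt 1 = 1 / 2 := by unfold wt; norm_num
lemma wt_neg_one : wt (-1) = 1 / 2 := by unfold wt; norm_num
lemma wt_zero : wt 0 = 1 := by unfold wt; norm_num

def L1 (u : XX) : BZ :=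
  (p2 + (2 : ℝ) • p1 + p0) * u.1
    + ((2 * u.2.2.2.2.1) • p2 + (2 * u.2.2.2.2.1) • p1) * b0
    - (1 - lam0) • C1 (Eq_ u.1 + (3 : ℝ) • u.2.2.1)
    - (3 * √3 * lam0) • Ci1 (Eq_ u.1 + (3 : ℝ) • u.2.2.1)
    - lam0 • Cchi (Ee u.1 + (3 : ℝ) • u.2.2.2.1)
    - u.2.2.2.2.2 • KK

def L2 (u : XX) : BN :=
  pN * u.2.1 + ((2 * u.2.2.2.2.1) • pN) * c0
    - (1 - lam0) • D1 (Ez u.2.1) - (3 * √3 * lam0) • Di0 (Ez u.2.1) + lam0 • Dchi (Ey u.2.1)

def L3 (u : XX) : FA := (2 : ℝ) • u.2.2.1 + Eq_ u.1 + cj (Eq_ u.1)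
def L4 (u : XX) : FA := (2 : ℝ) • u.2.2.2.1 + Ee u.1 + cj (Ee u.1)

def LL (u : XX) : YY := (L1 u, L2 u, L3 u, L4 u)

def H1 : BZ := -(1 - lam0) • C1 (RF 0 (Eq_ b0) sg0) - (3 * √3 * lam0) • Ci1 (RF 0 (Eq_ b0) sg0)
  - lam0 • Cchi (RF 0 (Ee b0) ta0)
def H2 : BN := -(1 - lam0) • D1 (RG 0 (Ez c0) sg0) - (3 * √3 * lam0) • Di0 (RG 0 (Ez c0) sg0)
  + lam0 • Dchi (RG 0 (Ey c0) ta0)
def H3 : FA := RS 0 (Eq_ b0) (Ez c0) sg0
def H4 : FA := RS 0 (Ee b0) (Ey c0) ta0
def HH : YY := (H1, H2, H3, H4)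

lemma Ps_zero (u : XX) : Ps (0, u) = LL u + HH := by
  simp only [Ps, LL, HH, Prod.mk_add_mk, Prod.mk.injEq]
  refine ⟨?_, ?_, ?_, ?_⟩
  · simp only [Ps1, L1, H1, F2, E2, bb, sg, ta, nu, lam, zero_smul, add_zero, zero_mul, one_pow,
      one_smul, mul_one, map_add, smul_add]
    module
  · simp only [Ps2, L2, H2, G2, Y2, cc, sg, ta, nu, lam, zero_smul, add_zero, zero_mul, one_pow,
      one_smul, map_add, smul_add]
    module
  · simp only [Ps3, L3, H3, bb, cc, sg, zero_smul, add_zero]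
  · simp only [Ps4, L4, H4, bb, cc, ta, zero_smul, add_zero]

lemma LL_add (u v : XX) : LL (u + v) = LL u + LL v := by
  simp only [LL, Prod.mk_add_mk, Prod.mk.injEq]
  refine ⟨?_, ?_, ?_, ?_⟩
  · simp only [L1, Prod.fst_add, Prod.snd_add, map_add, smul_add, mul_add, add_smul, add_mul,
      smul_mul_assoc]
    module
  · simp only [L2, Prod.fst_add, Prod.snd_add, map_add, smul_add, mul_add, add_smul, add_mul,
      smul_mul_assoc]
    module
  · simp only [L3, Prod.fst_add, Prod.snd_add, map_add, smul_add]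
    module
  · simp only [L4, Prod.fst_add, Prod.snd_add, map_add, smul_add]
    module

lemma LL_smul (t : ℝ) (u : XX) : LL (t • u) = t • LL u := by
  simp only [LL, Prod.smul_mk, Prod.mk.injEq]
  refine ⟨?_, ?_, ?_, ?_⟩
  · simp only [L1, Prod.smul_fst, Prod.smul_snd, map_add, map_smul, smul_add, add_mul,
      smul_mul_assoc, mul_smul_comm, smul_eq_mul]
    module
  · simp only [L2, Prod.smul_fst, Prod.smul_snd, map_smul,
      smul_mul_assoc, mul_smul_comm, smul_eq_mul]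
    module
  · simp only [L3, Prod.smul_fst, Prod.smul_snd, map_smul]
    module
  · simp only [L4, Prod.smul_fst, Prod.smul_snd, map_smul]
    module

/-- Vertical diagonal entry. -/
def VV (n : ℕ) : ℝ := (n : ℝ) ^ 2 - (if n % 3 = 0 then 8 * kk / 9 else 1)

lemma L2_apply (u : XX) (n : ℕ) :
    L2 u n = wt n * VV n * u.2.1 n + 2 * u.2.2.2.2.1 * (if n = 1 then 1 else 0) := by
  simp only [L2, BoundedContinuousFunction.add_apply, BoundedContinuousFunction.sub_apply,
    BoundedContinuousFunction.mul_apply, BoundedContinuousFunction.smul_apply, smul_eq_mul,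
    D1_apply, Di0_apply, Dchi_apply, co_Ez, co_Ey, pN_apply, c0_apply, Int.natAbs_natCast, VV,
    sqrt3_eq]
  have h1 := kk_lam0
  have h3 : (n : ℤ) % 3 = 0 ∧ n % 3 = 0 ∨ (n : ℤ) % 3 = 1 ∧ n % 3 = 1 ∨
      (n : ℤ) % 3 = 2 ∧ n % 3 = 2 := by omega
  by_cases hn : n = 1
  · subst hn
    simp [chi, i0]
    rw [wt_one]
    ring
  · rcases h3 with ⟨h, h'⟩ | ⟨h, h'⟩ | ⟨h, h'⟩
    · simp [chi, i0, h, h', hn]
      linear_combination (-(wt n * u.2.1 n)) * h1
    · simp [chi, i0, h, h', hn]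
      ring
    · simp [chi, i0, h, h', hn]
      ring

lemma VV_bound (n : ℕ) (hn : n ≠ 1) : 1 + (n : ℝ) ^ 2 ≤ 2 * |VV n| := by
  have hk := kk_bounds
  unfold VV
  rcases Nat.lt_or_ge n 3 with h | h
  · interval_cases n
    · simp only [Nat.cast_zero, Nat.zero_mod, if_true]
      rw [abs_of_neg (by linarith [hk.1])]; linarith [hk.1]
    · exact absurd rfl hn
    · norm_num
  · have h3 : (3 : ℝ) ≤ n := by exact_mod_cast h
    have : (9 : ℝ) ≤ (n : ℝ) ^ 2 := by nlinarith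
    split_ifs
    · rw [abs_of_pos (by linarith [hk.2])]; linarith [hk.2]
    · rw [abs_of_pos (by linarith)]; linarith

lemma VV_ne (n : ℕ) (hn : n ≠ 1) : VV n ≠ 0 := by
  intro h
  have := VV_bound n hn
  rw [h, abs_zero] at this
  nlinarith [sq_nonneg (n : ℝ)]

lemma solve_vertical (y : BN) : ∃ c : BN, ∀ n : ℕ, n ≠ 1 → wt n * VV n * c n = y n := by
  refine ⟨BoundedContinuousFunction.ofNormedAddCommGroupDiscrete
    (fun n : ℕ => if n = 1 then 0 else y n / (wt n * VV n)) (2 * ‖y‖) (fun n => ?_), ?_⟩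
  · split_ifs with hn
    · simp
    · have h1 := VV_bound n hn
      have h2 := y.norm_coe_le_norm n
      have h3 : 0 < |VV n| := abs_pos.mpr (VV_ne n hn)
      have h4 := wt_pos n
      rw [norm_div, norm_mul, Real.norm_of_nonneg h4.le, div_le_iff₀ (by positivity)]
      have h5 : 1 ≤ 2 * (wt n * ‖VV n‖) := by
        rw [Real.norm_eq_abs]
        unfold wt
        push_cast
        rw [mul_left_comm, one_div, inv_mul_eq_div, le_div_iff₀ (by positivity)]
        linarith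
      nlinarith [norm_nonneg y]
  · intro n hn
    have h3 := VV_ne n hn
    have h4 := (wt_pos n).ne'
    simp only [BoundedContinuousFunction.coe_ofNormedAddCommGroupDiscrete, hn, if_false]
    field_simp

/-- Horizontal diagonal entry. -/
def AA (n : ℤ) : ℝ := ((n : ℝ) + 1) ^ 2 + (if n % 3 = 1 then 8 * kk / 9 else 1) / 2
/-- Horizontal off-diagonal entry. -/
def BB (n : ℤ) : ℝ :=
  3 / 2 * (if n % 3 = 0 then 1 else if n % 3 = 1 then 8 * kk / 9 else 1 - lam0)

lemma KK_apply (n : ℤ) : KK n = if n = 1 then 9 / 2 else if n = -1 then 3 / 2 else 0 := by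
  simp only [KK, F1, E1, sg0, ta0, BoundedContinuousFunction.add_apply,
    BoundedContinuousFunction.neg_apply, BoundedContinuousFunction.smul_apply, smul_eq_mul,
    C1_apply, Ci1_apply, Cchi_apply, map_add, co_real_smul, co_cj, co_Eq, co_Ee, sqrt3_eq,
    b0_apply]
  have h := kk_bet
  by_cases h1 : n = 1
  · subst h1
    simp [chi, i1]
    rw [wt_one, wt_neg_one]
    linear_combination (1 / 2) * h
  · by_cases h2 : n = -1
    · subst h2
      simp [chi, i1]
      rw [wt_one, wt_neg_one]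
      ring
    · have h3 : -n ≠ 1 := by omega
      have h4 : -n ≠ -1 := by omega
      simp [h1, h2, h3, h4]

lemma L1_apply (b : BZ) (c : BN) (y3 y4 : FA) (π1 π2 : ℝ) (n : ℤ) :
    L1 (b, c, (1 / 2 : ℝ) • (y3 - Eq_ b - cj (Eq_ b)), (1 / 2 : ℝ) • (y4 - Ee b - cj (Ee b)),
      π1, π2) n =
      wt n * (AA n * b n + BB n * b (-n)) + 4 * π1 * (if n = 1 then 1 else 0)
        - π2 * (if n = 1 then 9 / 2 else if n = -1 then 3 / 2 else 0)
        - ((3 / 2 * (1 - lam0)) • C1 y3 + (3 / 2 * (3 * √3 * lam0)) • Ci1 y3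
            + (3 / 2 * lam0) • Cchi y4) n := by
  simp only [L1, BoundedContinuousFunction.add_apply, BoundedContinuousFunction.sub_apply,
    BoundedContinuousFunction.mul_apply, BoundedContinuousFunction.smul_apply, smul_eq_mul,
    C1_apply, Ci1_apply, Cchi_apply, map_add, map_sub, co_real_smul, co_cj, co_Eq, co_Ee,
    p2_apply, p1_apply, p0_apply, KK_apply, b0_apply, AA, BB, sqrt3_eq, wt_neg]
  have h1 := kk_lam0
  by_cases hn1 : n = 1
  · subst hn1
    simp [chi, i1]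
    rw [wt_one]
    linear_combination (1 / 4 * b 1 + 3 / 4 * b (-1)) * h1
  · by_cases hn2 : n = -1
    · subst hn2
      simp [chi, i1]
      ring
    · have h3 : n % 3 = 0 ∧ (1 - n) % 3 = 1 ∧ (1 - -n) % 3 = 1 ∨
          n % 3 = 1 ∧ (1 - n) % 3 = 0 ∧ (1 - -n) % 3 = 2 ∨
          n % 3 = 2 ∧ (1 - n) % 3 = 2 ∧ (1 - -n) % 3 = 0 := by omega
      rcases h3 with ⟨h, h', h''⟩ | ⟨h, h', h''⟩ | ⟨h, h', h''⟩
      · simp only [chi, i1, h, h', h'', hn1, hn2]
        simp
        ring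
      · simp only [chi, i1, h, h', h'', hn1, hn2]
        simp
        linear_combination (wt n * (1 / 2 * b n + 3 / 2 * b (-n))) * h1
      · simp only [chi, i1, h, h', h'', hn1, hn2]
        simp
        ring

lemma AA_lower (n : ℤ) : ((n : ℝ) + 1) ^ 2 + 1 / 2 ≤ AA n := by
  have := kk_bounds
  unfold AA; split_ifs <;> linarith [this.1]

lemma AA_upper (n : ℤ) : AA n ≤ ((n : ℝ) + 1) ^ 2 + 2 := by
  have := kk_bounds
  unfold AA; split_ifs <;> linarith [this.2]

lemma BB_bounds (n : ℤ) : 0 ≤ BB n ∧ BB n ≤ 6 := by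
  have := kk_bounds
  have := lam0_bounds
  unfold BB; split_ifs <;> constructor <;> linarith [kk_bounds.1, kk_bounds.2, this.1, this.2]

lemma BB_mul (n : ℤ) : BB n * BB (-n) ≤ 4 := by
  have hk := kk_bounds
  have hl := lam0_bounds
  have h3 : n % 3 = 0 ∧ (-n) % 3 = 0 ∨ n % 3 = 1 ∧ (-n) % 3 = 2 ∨ n % 3 = 2 ∧ (-n) % 3 = 1 := by
    omega
  rcases h3 with ⟨h, h'⟩ | ⟨h, h'⟩ | ⟨h, h'⟩ <;> simp only [BB, h, h'] <;> norm_num <;>
    nlinarith [hk.1, hk.2, hl.1, hl.2]

/-- Determinant of the two by two block. -/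
def DD (n : ℤ) : ℝ := AA n * AA (-n) - BB n * BB (-n)

lemma DD_neg (n : ℤ) : DD (-n) = DD n := by unfold DD; rw [neg_neg]; ring

lemma DD_lower (n : ℤ) (h : (4 : ℝ) ≤ (n : ℝ) ^ 2) : ((n : ℝ) ^ 2 - 1) ^ 2 ≤ DD n := by
  have h1 := AA_lower n
  have h2 := AA_lower (-n)
  have h3 := BB_mul n
  push_cast at h2
  have h4 : (((n : ℝ) + 1) ^ 2 + 1 / 2) * ((-(n : ℝ) + 1) ^ 2 + 1 / 2) ≤ AA n * AA (-n) :=
    mul_le_mul h1 h2 (by positivity) (le_trans (by positivity) h1)
  unfold DD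
  nlinarith

lemma sq_ge_four (n : ℤ) (h0 : n ≠ 0) (h1 : n ≠ 1) (h2 : n ≠ -1) : (4 : ℝ) ≤ (n : ℝ) ^ 2 := by
  have : (4 : ℤ) ≤ n ^ 2 := by
    rcases le_or_gt 0 n with h | h
    · have : 2 ≤ n := by omega
      nlinarith
    · have : n ≤ -2 := by omega
      nlinarith
  exact_mod_cast this

lemma solve_horizontal (r : BZ) (a : ℝ) : ∃ b : BZ, b 1 = 0 ∧ b (-1) = a ∧
    ∀ n : ℤ, n ≠ 1 → n ≠ -1 → wt n * (AA n * b n + BB n * b (-n)) = r n := by
  refine ⟨BoundedContinuousFunction.ofNormedAddCommGroupDiscrete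
    (fun n : ℤ => if n = 1 then 0 else if n = -1 then a else if n = 0 then r 0 / 3 else
      (AA (-n) * r n - BB n * r (-n)) / (wt n * DD n)) (10 * ‖r‖ + |a|) (fun n => ?_),
      by simp, by simp, ?_⟩
  · have hr := norm_nonneg r
    have ha := abs_nonneg a
    split_ifs with h1 h2 h0
    · simp; positivity
    · simp
    · have := r.norm_coe_le_norm 0
      rw [norm_div]
      simp only [Real.norm_ofNat]
      linarith [norm_nonneg (r 0)]
    · have h4 := sq_ge_four n h0 h1 h2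
      have hD := DD_lower n h4
      have hDp : 0 < DD n := lt_of_lt_of_le (by nlinarith) hD
      have hw := wt_pos n
      have hA := AA_upper (-n)
      have hA' := AA_lower (-n)
      have hB := BB_bounds n
      push_cast at hA hA'
      have hAp : 0 ≤ AA (-n) := le_trans (by positivity) hA'
      have e1 := r.norm_coe_le_norm n
      have e2 := r.norm_coe_le_norm (-n)
      have hnum : ‖AA (-n) * r n - BB n * r (-n)‖ ≤ (2 * (n : ℝ) ^ 2 + 10) * ‖r‖ := by
        refine (norm_sub_le _ _).trans ?_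
        rw [norm_mul, norm_mul, Real.norm_of_nonneg hAp, Real.norm_of_nonneg hB.1]
        have a1 : AA (-n) * ‖r n‖ ≤ (2 * (n : ℝ) ^ 2 + 4) * ‖r‖ :=
          mul_le_mul (by nlinarith [sq_nonneg ((n : ℝ) + 1)]) e1 (norm_nonneg _) (by positivity)
        have a2 : BB n * ‖r (-n)‖ ≤ 6 * ‖r‖ := mul_le_mul hB.2 e2 (norm_nonneg _) (by norm_num)
        linarith
      rw [norm_div, Real.norm_of_nonneg (mul_pos hw hDp).le, div_le_iff₀ (mul_pos hw hDp)]
      have h5 : 2 * (n : ℝ) ^ 2 + 10 ≤ 10 * (wt n * DD n) := by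
        unfold wt
        rw [mul_left_comm, one_div, inv_mul_eq_div, le_div_iff₀ (by positivity)]
        nlinarith
      have h6 : 0 ≤ |a| * (wt n * DD n) := by positivity
      nlinarith
  · intro n h1 h2
    have h1' : -n ≠ 1 := by omega
    have h2' : -n ≠ -1 := by omega
    simp only [BoundedContinuousFunction.coe_ofNormedAddCommGroupDiscrete, h1, h2, h1', h2',
      if_false, neg_neg, neg_eq_zero]
    by_cases h0 : n = 0
    · subst h0
      simp [AA, BB, wt_zero]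
      ring
    · have h4 := sq_ge_four n h0 h1 h2
      have hD := DD_lower n h4
      have hDp : 0 < DD n := lt_of_lt_of_le (by nlinarith) hD
      have hw := (wt_pos n).ne'
      have hD' := hDp.ne'
      simp only [h0, if_false, wt_neg, DD_neg]
      field_simp
      unfold DD
      ring

lemma LL_surjective : Function.Surjective LL := by
  rintro ⟨y1, y2, y3, y4⟩
  obtain ⟨c, hc⟩ := solve_vertical y2
  set π1 : ℝ := (y2 1 - wt 1 * VV 1 * c 1) / 2 with hπ1
  set r : BZ := y1 + ((3 / 2 * (1 - lam0)) • C1 y3 + (3 / 2 * (3 * √3 * lam0)) • Ci1 y3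
            + (3 / 2 * lam0) • Cchi y4) with hr
  set a : ℝ := (r 1 - 4 * π1 - 3 * r (-1)) / (2 * kk / 3 - 3 / 4) with ha
  have hk : 2 * kk / 3 - 3 / 4 ≠ 0 := by linarith [kk_bounds.1]
  have ha' : (2 * kk / 3 - 3 / 4) * a = r 1 - 4 * π1 - 3 * r (-1) := by
    rw [ha]; exact mul_div_cancel₀ _ hk
  obtain ⟨b, hb1, hb2, hb⟩ := solve_horizontal r a
  refine ⟨(b, c, (1 / 2 : ℝ) • (y3 - Eq_ b - cj (Eq_ b)), (1 / 2 : ℝ) • (y4 - Ee b - cj (Ee b)),
      π1, (a / 4 - r (-1)) * (2 / 3)), ?_⟩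
  simp only [LL, Prod.mk.injEq]
  refine ⟨?_, ?_, ?_, ?_⟩
  · ext n
    rw [L1_apply]
    have hy : y1 n = r n - ((3 / 2 * (1 - lam0)) • C1 y3 + (3 / 2 * (3 * √3 * lam0)) • Ci1 y3
            + (3 / 2 * lam0) • Cchi y4) n := by
      rw [hr, BoundedContinuousFunction.add_apply]; ring
    rw [hy]
    congr 1
    by_cases h1 : n = 1
    · subst h1
      rw [hb1, hb2, wt_one]
      simp [BB]
      linear_combination ha'
    · by_cases h2 : n = -1
      · subst h2
        rw [neg_neg, hb1, hb2, wt_neg_one]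
        simp [AA]
        ring
      · simp [h1, h2, hb n h1 h2]
  · ext n
    rw [L2_apply]
    by_cases h1 : n = 1
    · subst h1
      simp [hπ1]
      ring
    · simp [h1, hc n h1]
  · simp only [L3]; module
  · simp only [L4]; module

end Pool.Agent.Lib.MP_ba391d_an
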