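import Pool.Agent.Lib.MP_ba391d_an.Strong

/-! The three relative position vectors in space. -/

set_option autoImplicit false

open Complex
open scoped Real ComplexConjugate Topology

noncomputable section

namespace Pool.Agent.Lib.MP_ba391d_an

abbrev E3 : Type := EuclideanSpace ℝ (Fin 3)

/-- Embedding of a horizontal complex coordinate and a vertical coordinate in space. -/
def PP : (ℂ × ℂ) →L[ℝ] E3 :=
  LinearMap.toContinuousLinearMap
    { toFun := fun w => !₂[w.1.re, w.1.im, w.2.re]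
      map_add' := fun a b => by ext i; fin_cases i <;> simp
      map_smul' := fun r a => by ext i; fin_cases i <;> simp }

@[simp] lemma PP_zero' (w : ℂ × ℂ) : PP w 0 = w.1.re := rfl
@[simp] lemma PP_one' (w : ℂ × ℂ) : PP w 1 = w.1.im := rfl
@[simp] lemma PP_two' (w : ℂ × ℂ) : PP w 2 = w.2.re := rfl

lemma PP_norm (a b : ℂ) : ‖PP (a, b)‖ = √(normSq a + b.re ^ 2) := by
  rw [EuclideanSpace.norm_eq, Fin.sum_univ_three]
  simp only [PP_zero', PP_one', PP_two', Real.norm_eq_abs, sq_abs, normSq_apply]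
  congr 1; ring

/-- The Newtonian kernel. -/
def ff (x : E3) : E3 := (‖x‖ ^ 3)⁻¹ • x

lemma ff_neg (x : E3) : ff (-x) = -ff x := by simp [ff]

/-- Relative acceleration of the body at `a`, the two others being at `b` and `c`. -/
def acc (m μ : ℝ) (a b c : E3) : E3 :=
  -(m • ff a) - μ • (ff a + ff b + ff c) + μ • (ff (b - a) + ff (c - a))

/-- The determinant of three vectors. -/
def det3 (a b c : E3) : ℝ :=
  a 2 * (b 0 * c 1 - b 1 * c 0) + b 2 * (c 0 * a 1 - c 1 * a 0) + c 2 * (a 0 * b 1 - a 1 * b 0)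

lemma normSq_ee (τ : Cir) : normSq (ee 1 τ) = 1 := by
  rw [fourier_apply, Circle.normSq_coe]

lemma ee_gam : ee 1 gam = om := by
  rw [gam, fourier_coe_apply, om, ← exp_c3]
  have hpi : (π : ℂ) ≠ 0 := by exact_mod_cast Real.pi_ne_zero
  congr 1
  push_cast; field_simp

lemma ee_add_gam (τ : Cir) : ee 1 (τ + gam) = ee 1 τ * om := by
  rw [fourier_add_arg, ← ee_gam]

lemma ee_sub_gam (τ : Cir) : ee 1 (τ - gam) = ee 1 τ * omb := by
  rw [sub_eq_add_neg, fourier_add_arg, fourier_neg_arg, fourier_neg]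
  congr 1
  have := ee_gam
  simp only [ee] at this
  rw [this, om, omb]
  simp only [map_div₀, map_add, map_neg, map_one, map_mul, Complex.conj_ofReal, Complex.conj_I,
    map_ofNat]
  ring

lemma add_gam_gam (τ : Cir) : τ + gam + gam = τ - gam := by
  rw [add_assoc, gam_add, sub_eq_add_neg]

lemma sub_gam_gam (τ : Cir) : τ - gam - gam = τ + gam := by
  rw [sub_sub, gam_add, sub_neg_eq_add]

theorem relative_solution : ∃ (m μ B : ℝ) (r0 r1 r2 v0 v1 v2 : ℝ → E3), 0 < m ∧ 0 < μ ∧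
    (∀ t, HasDerivAt r0 (v0 t) t) ∧ (∀ t, HasDerivAt r1 (v1 t) t) ∧
    (∀ t, HasDerivAt r2 (v2 t) t) ∧
    (∀ t, HasDerivAt v0 (acc m μ (r0 t) (r1 t) (r2 t)) t) ∧
    (∀ t, HasDerivAt v1 (acc m μ (r1 t) (r2 t) (r0 t)) t) ∧
    (∀ t, HasDerivAt v2 (acc m μ (r2 t) (r0 t) (r1 t)) t) ∧
    (∀ t, ‖r0 t‖ ≤ B ∧ ‖r1 t‖ ≤ B ∧ ‖r2 t‖ ≤ B) ∧
    ∀ t, det3 (r0 t) (r1 t) (r2 t) ≠ 0 := by
  obtain ⟨l, ν, q, z, e, y, p, v, s, t, hl0, hl1, hν, z_im, y_im, R1, R3, hs, ht, hq, hz, hp, hv,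
    hD⟩ := circle_solution
  have hν' : (ν : ℂ) ≠ 0 := by exact_mod_cast hν.ne'
  have h3 : (0 : ℝ) < √3 := by positivity
  set X : Cir → Cir → E3 := fun τ σ => PP (ee 1 τ * q σ, z σ) with hX
  set V : Cir → Cir → E3 := fun τ σ => PP (ee 1 τ * (I * q σ + ν * p σ), ν * v σ) with hV
  have ffX : ∀ τ σ, ff (X τ σ) = PP (ee 1 τ * (q σ * s σ ^ 3), z σ * s σ ^ 3) := by
    intro τ σ
    simp only [ff, hX]
    rw [PP_norm, normSq_mul, normSq_ee, one_mul, ← inv_pow, ← (hs σ).2, ← map_smul]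
    congr 1
    ext <;> simp <;> ring
  have hN : ∀ τ σ, X (τ - gam) (σ + gam) - X (τ + gam) (σ - gam)
      = PP (ee 1 τ * (-I * (√3 : ℝ) * e σ), (√3 : ℝ) * y σ) := by
    intro τ σ
    simp only [hX]
    rw [← map_sub, ← R1, ← R3, ee_add_gam, ee_sub_gam]
    congr 1
    ext
    · simp only [Prod.fst_sub]; ring
    · simp only [Prod.snd_sub]
  have ffN : ∀ τ σ, ff (X (τ - gam) (σ + gam) - X (τ + gam) (σ - gam))
      = PP (ee 1 τ * (-I / 3 * (e σ * t σ ^ 3)), 1 / 3 * (y σ * t σ ^ 3)) := by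
    intro τ σ
    rw [hN]
    simp only [ff]
    have a1 : normSq (ee 1 τ * (-I * (√3 : ℝ) * e σ)) + (((√3 : ℝ) : ℂ) * y σ).re ^ 2
        = 3 * (normSq (e σ) + (y σ).re ^ 2) := by
      have a2 : √3 * √3 = (3 : ℝ) := Real.mul_self_sqrt (by norm_num)
      simp only [normSq_mul, normSq_ee, normSq_neg, normSq_I, normSq_ofReal, re_ofReal_mul]
      linear_combination (normSq (e σ) + (y σ).re ^ 2) * a2
    have a3 : ((√3 * √(normSq (e σ) + (y σ).re ^ 2)) ^ 3)⁻¹ = (√3)⁻¹ * (1 / 3) * t σ ^ 3 := by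
      have a2 : √3 ^ 2 = (3 : ℝ) := Real.sq_sqrt (by norm_num)
      rw [(ht σ).2, mul_pow, mul_inv, inv_pow, pow_succ (√3) 2, a2]
      ring
    rw [PP_norm, a1, Real.sqrt_mul (by norm_num), a3, ← map_smul]
    have h3' : ((√3 : ℝ) : ℂ) ≠ 0 := by exact_mod_cast h3.ne'
    congr 1
    ext
    · simp only [Prod.smul_fst, real_smul]; push_cast; field_simp
    · simp only [Prod.smul_snd, real_smul]; push_cast; field_simp
  have dX : ∀ a b r : ℝ, HasDerivAt (fun r : ℝ => X ((r + a : ℝ) : Cir) ((ν * r + b : ℝ) : Cir))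
      (V ((r + a : ℝ) : Cir) ((ν * r + b : ℝ) : Cir)) r := by
    intro a b r
    have i1 : HasDerivAt (fun r : ℝ => r + a) 1 r := (hasDerivAt_id r).add_const a
    have i2 : HasDerivAt (fun r : ℝ => ν * r + b) ν r := by
      simpa using ((hasDerivAt_id r).const_mul ν).add_const b
    have j1 := (hasDerivAt_ee 1 (r + a)).scomp r i1
    have j2 := (hq (ν * r + b)).scomp r i2
    have j3 := (hz (ν * r + b)).scomp r i2
    have j4 := PP.hasFDerivAt.comp_hasDerivAt r ((j1.mul j2).prodMk j3)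
    refine j4.congr_deriv ?_
    simp only [hV]
    congr 1
    ext
    · simp only [Function.comp, real_smul]; push_cast; ring
    · simp only [real_smul]
  have dV : ∀ a b r : ℝ, HasDerivAt (fun r : ℝ => V ((r + a : ℝ) : Cir) ((ν * r + b : ℝ) : Cir))
      (acc (1 - l) (√3 * l) (X ((r + a : ℝ) : Cir) ((ν * r + b : ℝ) : Cir))
        (X (((r + a : ℝ) : Cir) + gam) (((ν * r + b : ℝ) : Cir) - gam))
        (X (((r + a : ℝ) : Cir) - gam) (((ν * r + b : ℝ) : Cir) + gam))) r := by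
    intro a b r
    have i1 : HasDerivAt (fun r : ℝ => r + a) 1 r := (hasDerivAt_id r).add_const a
    have i2 : HasDerivAt (fun r : ℝ => ν * r + b) ν r := by
      simpa using ((hasDerivAt_id r).const_mul ν).add_const b
    have j1 := (hasDerivAt_ee 1 (r + a)).scomp r i1
    have j2 := (hq (ν * r + b)).scomp r i2
    have j3 := (hp (ν * r + b)).scomp r i2
    have j5 := (hv (ν * r + b)).scomp r i2
    have j4 := PP.hasFDerivAt.comp_hasDerivAt r
      ((j1.mul ((j2.const_mul I).add (j3.const_mul (ν : ℂ)))).prodMk (j5.const_mul (ν : ℂ)))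
    refine j4.congr_deriv ?_
    simp only [Function.comp, Pi.add_apply]
    generalize ((r + a : ℝ) : Cir) = τ
    generalize ((ν * r + b : ℝ) : Cir) = σ
    have k1 := ffN (τ - gam) (σ + gam)
    rw [sub_gam_gam, add_gam_gam, sub_add_cancel, add_sub_cancel_right] at k1
    have k2 := ffN (τ + gam) (σ - gam)
    rw [sub_gam_gam, add_gam_gam, sub_add_cancel, add_sub_cancel_right, ← neg_sub, ff_neg,
      neg_eq_iff_eq_neg] at k2
    simp only [acc]
    rw [k1, k2, ffX, ffX, ffX]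
    simp only [← map_smul, ← map_neg, ← map_add, ← map_sub]
    congr 1
    ext
    · simp only [real_smul, Prod.fst_add, Prod.fst_sub, Prod.fst_neg,
        Prod.smul_fst, ee_add_gam, ee_sub_gam]
      push_cast
      field_simp
      linear_combination (3 * q σ) * I_mul_I
    · simp only [real_smul, Prod.snd_add, Prod.snd_sub, Prod.snd_neg, Prod.smul_snd]
      push_cast
      field_simp
      ring
  have bX : ∀ τ σ, ‖X τ σ‖ ≤ ‖PP‖ * (‖q‖ + ‖z‖) := by
    intro τ σ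
    refine (PP.le_opNorm _).trans (mul_le_mul_of_nonneg_left ?_ (norm_nonneg _))
    rw [Prod.norm_def]
    have a1 := q.norm_coe_le_norm σ
    have a2 := z.norm_coe_le_norm σ
    refine max_le ?_ ?_
    · simp only [norm_mul, fourier_apply, Circle.norm_coe, one_mul]
      linarith [norm_nonneg z]
    · linarith [norm_nonneg q]
  have c1 : ∀ r : ℝ, ((r + c3 : ℝ) : Cir) = ((r + 0 : ℝ) : Cir) + gam := fun r => by
    simp [gam]
  have c2 : ∀ r : ℝ, ((r + -c3 : ℝ) : Cir) = ((r + 0 : ℝ) : Cir) - gam := fun r => by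
    simp [gam, sub_eq_add_neg]
  refine ⟨1 - l, √3 * l, ‖PP‖ * (‖q‖ + ‖z‖),
    fun r => X ((r + 0 : ℝ) : Cir) ((ν * r + 0 : ℝ) : Cir),
    fun r => X ((r + c3 : ℝ) : Cir) ((ν * r + -c3 : ℝ) : Cir),
    fun r => X ((r + -c3 : ℝ) : Cir) ((ν * r + c3 : ℝ) : Cir),
    fun r => V ((r + 0 : ℝ) : Cir) ((ν * r + 0 : ℝ) : Cir),
    fun r => V ((r + c3 : ℝ) : Cir) ((ν * r + -c3 : ℝ) : Cir),
    fun r => V ((r + -c3 : ℝ) : Cir) ((ν * r + c3 : ℝ) : Cir),
    by linarith, by positivity, dX 0 0, dX c3 (-c3), dX (-c3) c3, fun r => ?_, fun r => ?_,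
    fun r => ?_, fun r => ⟨bX _ _, bX _ _, bX _ _⟩, fun r => ?_⟩
  · refine (dV 0 0 r).congr_deriv ?_
    simp only [c1, c2]
  · refine (dV c3 (-c3) r).congr_deriv ?_
    simp only [c1, c2, add_gam_gam, sub_gam_gam, sub_add_cancel, add_sub_cancel_right]
  · refine (dV (-c3) c3 r).congr_deriv ?_
    simp only [c1, c2, add_gam_gam, sub_gam_gam, sub_add_cancel, add_sub_cancel_right]
  · simp only [c1, c2]
    generalize ((r + 0 : ℝ) : Cir) = τ
    generalize ((ν * r + 0 : ℝ) : Cir) = σ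
    have a1 := hD σ
    have a2 := normSq_ee τ
    simp only [det3, hX, PP_zero', PP_one', PP_two', ee_add_gam, ee_sub_gam, mul_assoc]
    generalize om * q (σ - gam) = Q1 at *
    generalize omb * q (σ + gam) = Q2 at *
    generalize ee 1 τ = E at *
    intro hx
    apply a1
    simp only [normSq_apply, mul_re, mul_im, conj_re, conj_im] at a2 hx ⊢
    linear_combination hx - ((z σ).re * (Q1.re * Q2.im - Q1.im * Q2.re)
      + (z (σ - gam)).re * (Q2.re * (q σ).im - Q2.im * (q σ).re)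
      + (z (σ + gam)).re * ((q σ).re * Q1.im - (q σ).im * Q1.re)) * a2

end Pool.Agent.Lib.MP_ba391d_an
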