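import Pool.Agent.Lib.MP_ba391d_an.Weak

/-! From the Fourier system to pointwise differential equations on the circle. -/

set_option autoImplicit false

open Complex
open scoped Real ComplexConjugate Topology

noncomputable section

namespace Pool.Agent.Lib.MP_ba391d_an

lemma second_order (f g : FA) (a : ℂ)
    (h : ∀ n : ℤ, (I * n) ^ 2 * co n f + a * (I * n) * co n f = co n g) :
    ∃ p : FA, (∀ t : ℝ, HasDerivAt (fun s : ℝ => f (s : Cir)) (p (t : Cir)) t) ∧
      ∀ t : ℝ, HasDerivAt (fun s : ℝ => p (s : Cir)) (g (t : Cir) - a * p (t : Cir)) t := by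
  have h0 : co 0 g = 0 := by rw [← h 0]; simp
  obtain ⟨H1, hd1, hz1, hc1⟩ := exists_antideriv g h0
  set p : FA := H1 - a • (f - co 0 f • 1) with hp
  have hpc : ∀ n : ℤ, co n p = I * n * co n f := by
    intro n
    rw [hp, map_sub, map_smul, map_sub, map_smul, co_one]
    by_cases hn : n = 0
    · subst hn; simp [hz1]
    · have hI : (I * n : ℂ) ≠ 0 := mul_ne_zero I_ne_zero (by exact_mod_cast hn)
      apply mul_left_cancel₀ hI
      simp only [hn, if_false, smul_eq_mul, mul_zero, sub_zero]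
      linear_combination hc1 n - h n
  obtain ⟨H2, hd2, hz2, hc2⟩ := exists_antideriv p (by rw [hpc]; simp)
  have hf : f = H2 + co 0 f • 1 := by
    refine FA_ext fun n => ?_
    rw [map_add, map_smul, co_one]
    by_cases hn : n = 0
    · subst hn; simp [hz2]
    · have hI : (I * n : ℂ) ≠ 0 := mul_ne_zero I_ne_zero (by exact_mod_cast hn)
      apply mul_left_cancel₀ hI
      simp only [hn, if_false, smul_eq_mul, mul_zero, add_zero]
      rw [hc2, hpc]
  have hdf : ∀ t : ℝ, HasDerivAt (fun s : ℝ => f (s : Cir)) (p (t : Cir)) t := by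
    intro t
    have e : (fun s : ℝ => f (s : Cir)) = fun s : ℝ => H2 (s : Cir) + co 0 f := by
      funext s
      conv_lhs => rw [hf]
      simp
    rw [e]
    exact (hd2 t).add_const _
  refine ⟨p, hdf, fun t => ?_⟩
  have e : (fun s : ℝ => p (s : Cir)) = fun s : ℝ => H1 (s : Cir) - a * (f (s : Cir) - co 0 f) := by
    funext s
    simp [hp]
  rw [e]
  exact (hd1 t).sub (((hdf t).sub_const _).const_mul a)

lemma root_eq (s : ℂ) (r : ℝ) (hr : 0 ≤ r) (h : s ^ 2 * r = 1) (hs : ‖s - 1‖ < 1) :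
    0 < r ∧ s = ((√r)⁻¹ : ℝ) := by
  have hr0 : r ≠ 0 := by
    rintro rfl
    simp at h
  have hpos : 0 < r := lt_of_le_of_ne hr (Ne.symm hr0)
  have hq : 0 < √r := Real.sqrt_pos.mpr hpos
  have hq' : ((√r : ℝ) : ℂ) ≠ 0 := by exact_mod_cast hq.ne'
  have hsq : ((√r : ℝ) : ℂ) ^ 2 = r := by exact_mod_cast Real.sq_sqrt hr
  refine ⟨hpos, ?_⟩
  have h2 : (s * √r - 1) * (s * √r + 1) = 0 := by linear_combination h + s ^ 2 * hsq
  rcases mul_eq_zero.mp h2 with h3 | h3
  · push_cast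
    field_simp
    linear_combination h3
  · exfalso
    have h4 : s - 1 = ((-(√r)⁻¹ - 1 : ℝ) : ℂ) := by
      push_cast
      field_simp
      linear_combination h3
    rw [h4, Complex.norm_real, Real.norm_eq_abs] at hs
    have := neg_abs_le (-(√r)⁻¹ - 1)
    have : 0 < (√r)⁻¹ := inv_pos.mpr hq
    linarith

/-- One third of the period. -/
def c3 : ℝ := 2 * π / 3

lemma exp_c3 : cexp (c3 * I) = (-1 + (√3 : ℝ) * I) / 2 := by
  have h1 : Real.cos c3 = -1 / 2 := by
    have : c3 = π - π / 3 := by unfold c3; ring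
    rw [this, Real.cos_pi_sub, Real.cos_pi_div_three]; norm_num
  have h2 : Real.sin c3 = √3 / 2 := by
    have : c3 = π - π / 3 := by unfold c3; ring
    rw [this, Real.sin_pi_sub, Real.sin_pi_div_three]
  rw [Complex.exp_mul_I, ← Complex.ofReal_cos, ← Complex.ofReal_sin, h1, h2]
  push_cast; ring

lemma sqrt3_sq : ((√3 : ℝ) : ℂ) ^ 2 = 3 := by
  exact_mod_cast Real.sq_sqrt (by norm_num : (0 : ℝ) ≤ 3)

lemma exp_n_c3 (n : ℤ) :
    cexp (n * c3 * I) = (3 * i0 n - 1) / 2 + (√3 : ℝ) / 2 * chi n * I := by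
  have h3 : cexp (3 * (c3 * I)) = 1 := by
    have : (3 * (c3 * I) : ℂ) = 2 * π * I := by unfold c3; push_cast; ring
    rw [this, Complex.exp_two_pi_mul_I]
  have hn : (n : ℂ) = ((n / 3 : ℤ) : ℂ) * 3 + ((n % 3 : ℤ) : ℂ) := by
    have : n = (n / 3) * 3 + n % 3 := by omega
    exact_mod_cast this
  have e : cexp (n * c3 * I) = cexp (((n % 3 : ℤ) : ℂ) * (c3 * I)) := by
    have : (n * c3 * I : ℂ) = ((n / 3 : ℤ) : ℂ) * (3 * (c3 * I)) + ((n % 3 : ℤ) : ℂ) * (c3 * I) := by
      conv_lhs => rw [hn]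
      ring
    rw [this, Complex.exp_add, Complex.exp_int_mul, h3, one_zpow, one_mul]
  rw [e]
  have hm : n % 3 = 0 ∨ n % 3 = 1 ∨ n % 3 = 2 := by omega
  rcases hm with h | h | h
  · simp [i0, chi, h]; norm_num
  · simp only [i0, chi, h]
    simp [exp_c3]; ring
  · simp only [i0, chi, h]
    have : (((2 : ℤ) : ℂ) * (c3 * I)) = c3 * I + c3 * I := by push_cast; ring
    rw [this, Complex.exp_add, exp_c3]
    simp
    linear_combination (I ^ 2 / 4) * sqrt3_sq + (3 / 4) * I_mul_I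

/-- The primitive cube root of unity. -/
def om : ℂ := (-1 + (√3 : ℝ) * I) / 2
/-- Its conjugate. -/
def omb : ℂ := (-1 - (√3 : ℝ) * I) / 2

lemma chi_neg (n : ℤ) : chi (-n) = -chi n := by
  have hm : n % 3 = 0 ∧ (-n) % 3 = 0 ∨ n % 3 = 1 ∧ (-n) % 3 = 2 ∨ n % 3 = 2 ∧ (-n) % 3 = 1 := by
    omega
  rcases hm with ⟨h, h'⟩ | ⟨h, h'⟩ | ⟨h, h'⟩ <;> simp only [chi, h, h'] <;> norm_num

lemma i0_neg (n : ℤ) : i0 (-n) = i0 n := by
  have hm : n % 3 = 0 ∧ (-n) % 3 = 0 ∨ n % 3 = 1 ∧ (-n) % 3 = 2 ∨ n % 3 = 2 ∧ (-n) % 3 = 1 := by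
    omega
  rcases hm with ⟨h, h'⟩ | ⟨h, h'⟩ | ⟨h, h'⟩ <;> simp only [i0, h, h'] <;> norm_num

lemma co_shift_pos (n : ℤ) (f : FA) :
    co n (shift c3 f) = ((3 * i0 n - 1) / 2 + (√3 : ℝ) / 2 * chi n * I) * co n f := by
  rw [co_shift, exp_n_c3]

lemma co_shift_neg (n : ℤ) (f : FA) :
    co n (shift (-c3) f) = ((3 * i0 n - 1) / 2 - (√3 : ℝ) / 2 * chi n * I) * co n f := by
  rw [co_shift]
  have : (n * ((-c3 : ℝ) : ℂ) * I : ℂ) = ((-n : ℤ) : ℂ) * c3 * I := by push_cast; ring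
  rw [this, exp_n_c3, chi_neg, i0_neg]
  push_cast; ring

lemma om_mul (n : ℤ) : om * ((3 * i0 n - 1) / 2 - (√3 : ℝ) / 2 * chi n * I)
    = (3 * i1 n - 1) / 2 + (√3 : ℝ) / 2 * chi (1 - n) * I := by
  have hm : n % 3 = 0 ∧ (1 - n) % 3 = 1 ∨ n % 3 = 1 ∧ (1 - n) % 3 = 0 ∨
      n % 3 = 2 ∧ (1 - n) % 3 = 2 := by omega
  rcases hm with ⟨h, h'⟩ | ⟨h, h'⟩ | ⟨h, h'⟩ <;> simp only [om, i0, i1, chi, h, h'] <;> norm_num
  · ring
  · linear_combination (-I ^ 2 / 4) * sqrt3_sq - (3 / 4) * I_mul_I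
  · linear_combination (I ^ 2 / 4) * sqrt3_sq + (3 / 4) * I_mul_I

lemma omb_mul (n : ℤ) : omb * ((3 * i0 n - 1) / 2 + (√3 : ℝ) / 2 * chi n * I)
    = (3 * i1 n - 1) / 2 - (√3 : ℝ) / 2 * chi (1 - n) * I := by
  have hm : n % 3 = 0 ∧ (1 - n) % 3 = 1 ∨ n % 3 = 1 ∧ (1 - n) % 3 = 0 ∨
      n % 3 = 2 ∧ (1 - n) % 3 = 2 := by omega
  rcases hm with ⟨h, h'⟩ | ⟨h, h'⟩ | ⟨h, h'⟩ <;> simp only [omb, i0, i1, chi, h, h'] <;> norm_num
  · ring
  · linear_combination (-I ^ 2 / 4) * sqrt3_sq - (3 / 4) * I_mul_I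
  · linear_combination (I ^ 2 / 4) * sqrt3_sq + (3 / 4) * I_mul_I

/-- Rotated backward shift. -/
def S1 (f : FA) : FA := om • shift (-c3) f
/-- Rotated forward shift. -/
def S2 (f : FA) : FA := omb • shift c3 f

lemma co_S1 (n : ℤ) (f : FA) :
    co n (S1 f) = ((3 * i1 n - 1) / 2 + (√3 : ℝ) / 2 * chi (1 - n) * I) * co n f := by
  rw [S1, map_smul, co_shift_neg, smul_eq_mul, ← mul_assoc, om_mul]

lemma co_S2 (n : ℤ) (f : FA) :
    co n (S2 f) = ((3 * i1 n - 1) / 2 - (√3 : ℝ) / 2 * chi (1 - n) * I) * co n f := by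
  rw [S2, map_smul, co_shift_pos, smul_eq_mul, ← mul_assoc, omb_mul]

/-- The shift as a point of the circle. -/
def gam : Cir := (c3 : Cir)

lemma gam_add : gam + gam = -gam := by
  rw [eq_neg_iff_add_eq_zero, gam, ← AddCircle.coe_add, ← AddCircle.coe_add]
  have : c3 + c3 + c3 = 2 * π := by unfold c3; ring
  rw [this, AddCircle.coe_period]

lemma S1_apply (f : FA) (x : Cir) : S1 f x = om * f (x - gam) := by
  simp [S1, gam, sub_eq_add_neg]

lemma S2_apply (f : FA) (x : Cir) : S2 f x = omb * f (x + gam) := by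
  simp [S2, gam]

lemma shift_neg_apply (f : FA) (x : Cir) : shift (-c3) f x = f (x - gam) := by
  simp [gam, sub_eq_add_neg]

lemma shift_pos_apply (f : FA) (x : Cir) : shift c3 f x = f (x + gam) := by
  simp [gam]

lemma refl_eq_cj {f : FA} (h : ∀ n, (co n f).im = 0) (x : Cir) : f (-x) = conj (f x) := by
  have : refl f = cj f := by
    refine FA_ext fun n => ?_
    rw [co_refl, co_cj, Complex.conj_eq_iff_im.mpr (h _)]
  exact congrArg (fun g : FA => g x) this

theorem circle_solution : ∃ (l ν : ℝ) (q z e y p v : FA) (s t : Cir → ℝ), 0 < l ∧ l < 1 ∧ 0 < ν ∧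
    (∀ x, (z x).im = 0) ∧ (∀ x, (y x).im = 0) ∧
    (∀ x, omb * q (x + gam) - om * q (x - gam) = -I * (√3 : ℝ) * e x) ∧
    (∀ x, z (x + gam) - z (x - gam) = (√3 : ℝ) * y x) ∧
    (∀ x, 0 < normSq (q x) + (z x).re ^ 2 ∧ s x = (√(normSq (q x) + (z x).re ^ 2))⁻¹) ∧
    (∀ x, 0 < normSq (e x) + (y x).re ^ 2 ∧ t x = (√(normSq (e x) + (y x).re ^ 2))⁻¹) ∧
    (∀ r : ℝ, HasDerivAt (fun r : ℝ => q (r : Cir)) (p (r : Cir)) r) ∧
    (∀ r : ℝ, HasDerivAt (fun r : ℝ => z (r : Cir)) (v (r : Cir)) r) ∧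
    (∀ r : ℝ, HasDerivAt (fun r : ℝ => p (r : Cir))
      ((q r - ((1 - l) * (q r * s r ^ 3) + (√3 : ℝ) * l * (q r * s r ^ 3
          + om * (q (r - gam) * s (r - gam) ^ 3) + omb * (q (r + gam) * s (r + gam) ^ 3))
          - (√3 : ℝ) * l * (-I / 3) * (omb * (e (r + gam) * t (r + gam) ^ 3)
            - om * (e (r - gam) * t (r - gam) ^ 3)))) / ν ^ 2 - 2 * I / ν * p r) r) ∧
    (∀ r : ℝ, HasDerivAt (fun r : ℝ => v (r : Cir))
      (-((1 - l) * (z r * s r ^ 3) + (√3 : ℝ) * l * (z r * s r ^ 3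
          + z (r - gam) * s (r - gam) ^ 3 + z (r + gam) * s (r + gam) ^ 3)
          - (√3 : ℝ) * l * (1 / 3) * (y (r + gam) * t (r + gam) ^ 3
            - y (r - gam) * t (r - gam) ^ 3)) / ν ^ 2) r) ∧
    ∀ x, (z x).re * (conj (om * q (x - gam)) * (omb * q (x + gam))).im
      + (z (x - gam)).re * (conj (omb * q (x + gam)) * q x).im
      + (z (x + gam)).re * (conj (q x) * (om * q (x - gam))).im ≠ 0 := by
  obtain ⟨l, ν, q, z, e, y, g, h, s, t, hl0, hl1, hν, he, hg, hy, hh, hqr, hzr, hze, hs, ht,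
    hs1, ht1, hH, hV, hD⟩ := weak_solution
  have hν' : (ν : ℂ) ≠ 0 := by exact_mod_cast hν.ne'
  -- symmetries
  have q_neg : ∀ x, q (-x) = conj (q x) := refl_eq_cj hqr
  have e_neg : ∀ x, e (-x) = conj (e x) := refl_eq_cj fun n => by rw [he]; simp [hqr]
  have z_neg : ∀ x, z (-x) = z x := fun x => by
    have : refl z = z := FA_ext fun n => by rw [co_refl, hze]
    exact congrArg (fun g : FA => g x) this
  have z_im : ∀ x, (z x).im = 0 := fun x =>
    Complex.conj_eq_iff_im.mp ((refl_eq_cj hzr x).symm.trans (z_neg x))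
  have y_neg : ∀ x, y (-x) = -y x := fun x => by
    have : refl y = -y := FA_ext fun n => by
      rw [co_refl, map_neg, hy, hy, hze, chi_neg]; push_cast; ring
    exact congrArg (fun g : FA => g x) this
  have y_im : ∀ x, (y x).im = 0 := fun x => by
    have : cj y = y := FA_ext fun n => by
      rw [co_cj, hy, hy, hze, chi_neg, map_mul, map_mul, Complex.conj_eq_iff_im.mpr (hzr n),
        Complex.conj_I, Complex.conj_ofReal]
      push_cast; ring
    exact Complex.conj_eq_iff_im.mp (congrArg (fun g : FA => g x) this)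
  have z_re : ∀ x, z x = ((z x).re : ℂ) := fun x => (Complex.conj_eq_iff_re.mp
    (Complex.conj_eq_iff_im.mpr (z_im x))).symm
  have y_re : ∀ x, y x = ((y x).re : ℂ) := fun x => (Complex.conj_eq_iff_re.mp
    (Complex.conj_eq_iff_im.mpr (y_im x))).symm
  -- shifts
  have R1 : S2 q - S1 q = (-I * (√3 : ℝ)) • e := FA_ext fun n => by
    rw [map_sub, map_smul, co_S1, co_S2, he, smul_eq_mul]; ring
  have R2 : q + S1 q + S2 q = (3 : ℂ) • g := FA_ext fun n => by
    rw [map_add, map_add, map_smul, co_S1, co_S2, hg, smul_eq_mul]; ring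
  have R3 : shift c3 z - shift (-c3) z = ((√3 : ℝ) : ℂ) • y := FA_ext fun n => by
    rw [map_sub, map_smul, co_shift_pos, co_shift_neg, hy, smul_eq_mul]; ring
  have R4 : z + shift (-c3) z + shift c3 z = (3 : ℂ) • h := FA_ext fun n => by
    rw [map_add, map_add, map_smul, co_shift_pos, co_shift_neg, hh, smul_eq_mul]; ring
  have R1' : ∀ x, omb * q (x + gam) - om * q (x - gam) = -I * (√3 : ℝ) * e x := fun x => by
    have := congrArg (fun g : FA => g x) R1
    simpa only [ContinuousMap.sub_apply, S1_apply, S2_apply, ContinuousMap.smul_apply,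
      smul_eq_mul] using this
  have R2' : ∀ x, q x + om * q (x - gam) + omb * q (x + gam) = 3 * g x := fun x => by
    have := congrArg (fun g : FA => g x) R2
    simpa only [ContinuousMap.add_apply, S1_apply, S2_apply, ContinuousMap.smul_apply,
      smul_eq_mul] using this
  have R3' : ∀ x, z (x + gam) - z (x - gam) = (√3 : ℝ) * y x := fun x => by
    have := congrArg (fun g : FA => g x) R3
    simpa only [ContinuousMap.sub_apply, shift_neg_apply, shift_pos_apply,
      ContinuousMap.smul_apply, smul_eq_mul] using this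
  have R4' : ∀ x, z x + z (x - gam) + z (x + gam) = 3 * h x := fun x => by
    have := congrArg (fun g : FA => g x) R4
    simpa only [ContinuousMap.add_apply, shift_neg_apply, shift_pos_apply,
      ContinuousMap.smul_apply, smul_eq_mul] using this
  -- the inverse distances
  have s_eq : ∀ x, 0 < normSq (q x) + (z x).re ^ 2 ∧
      s x = ((√(normSq (q x) + (z x).re ^ 2))⁻¹ : ℝ) := fun x => by
    refine root_eq _ _ (add_nonneg (normSq_nonneg _) (sq_nonneg _)) ?_ ?_
    · have := congrArg (fun g : FA => g x) hs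
      simp only [ContinuousMap.mul_apply, ContinuousMap.pow_apply, ContinuousMap.add_apply,
        cj_apply, ContinuousMap.one_apply, Complex.mul_conj] at this
      rw [z_re x] at this
      push_cast
      exact this
    · exact lt_of_le_of_lt ((s - 1).norm_coe_le_norm x) hs1
  have t_eq : ∀ x, 0 < normSq (e x) + (y x).re ^ 2 ∧
      t x = ((√(normSq (e x) + (y x).re ^ 2))⁻¹ : ℝ) := fun x => by
    refine root_eq _ _ (add_nonneg (normSq_nonneg _) (sq_nonneg _)) ?_ ?_
    · have := congrArg (fun g : FA => g x) ht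
      simp only [ContinuousMap.mul_apply, ContinuousMap.pow_apply, ContinuousMap.add_apply,
        cj_apply, ContinuousMap.one_apply, Complex.mul_conj] at this
      rw [y_re x] at this
      push_cast
      exact this
    · exact lt_of_le_of_lt ((t - 1).norm_coe_le_norm x) ht1
  have s_neg : ∀ x, s (-x) = s x := fun x => by
    rw [(s_eq _).2, (s_eq x).2, q_neg, z_neg, normSq_conj]
  have t_neg : ∀ x, t (-x) = t x := fun x => by
    rw [(t_eq _).2, (t_eq x).2, e_neg, y_neg, normSq_conj, neg_re, neg_sq]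
  have s_cj : ∀ x, conj (s x) = s x := fun x => by rw [(s_eq x).2, Complex.conj_ofReal]
  have t_cj : ∀ x, conj (t x) = t x := fun x => by rw [(t_eq x).2, Complex.conj_ofReal]
  have z_cj : ∀ x, conj (z x) = z x := fun x => Complex.conj_eq_iff_im.mpr (z_im x)
  have y_cj : ∀ x, conj (y x) = y x := fun x => Complex.conj_eq_iff_im.mpr (y_im x)
  have F_im : ∀ n, (co n (q * s ^ 3)).im = 0 := im_co_eq_zero fun x => by
    simp [q_neg, s_neg, s_cj]
  have E_im : ∀ n, (co n (e * t ^ 3)).im = 0 := im_co_eq_zero fun x => by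
    simp [e_neg, t_neg, t_cj]
  have G_im : ∀ n, (co n (z * s ^ 3)).im = 0 := im_co_eq_zero fun x => by
    simp [z_neg, s_neg, s_cj, z_cj]
  have G_ev : ∀ n, co (-n) (z * s ^ 3) = co n (z * s ^ 3) := co_neg_of_even fun x => by
    simp [z_neg, s_neg]
  have Y_re : ∀ n, (co n (y * t ^ 3)).re = 0 := fun n => by
    have := im_co_eq_zero (f := I • (y * t ^ 3)) (fun x => by simp [y_neg, t_neg, t_cj, y_cj]) n
    rw [map_smul] at this
    simpa using this
  have Y_od : ∀ n, co (-n) (y * t ^ 3) = -co n (y * t ^ 3) := co_neg_of_odd fun x => by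
    simp [y_neg, t_neg]
  have hH' : ∀ n : ℤ, ((n : ℂ) * ν + 1) ^ 2 * co n q =
      (1 - l + 3 * (√3 : ℝ) * l * i1 n) * co n (q * s ^ 3) + l * chi (1 - n) * co n (e * t ^ 3) := by
    intro n
    have a1 := (Complex.conj_eq_iff_re.mp (Complex.conj_eq_iff_im.mpr (hqr n))).symm
    have a2 := (Complex.conj_eq_iff_re.mp (Complex.conj_eq_iff_im.mpr (F_im n))).symm
    have a3 := (Complex.conj_eq_iff_re.mp (Complex.conj_eq_iff_im.mpr (E_im n))).symm
    rw [a1, a2, a3]
    exact_mod_cast hH n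
  have hV0 : ∀ n : ℕ, (((n : ℤ) : ℂ) * ν) ^ 2 * co n z =
      (1 - l + 3 * (√3 : ℝ) * l * i0 n) * co n (z * s ^ 3) - I * l * chi n * co n (y * t ^ 3) := by
    intro n
    have a1 := (Complex.conj_eq_iff_re.mp (Complex.conj_eq_iff_im.mpr (hzr n))).symm
    have a2 := (Complex.conj_eq_iff_re.mp (Complex.conj_eq_iff_im.mpr (G_im n))).symm
    have a3 : co n (y * t ^ 3) = I * ((co n (y * t ^ 3)).im : ℂ) := by
      apply Complex.ext <;> simp [Y_re]
    have a4 : (((n * ν) ^ 2 * (co n z).re : ℝ) : ℂ) = (((1 - l + 3 * √3 * l * i0 n) *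
        (co n (z * s ^ 3)).re + l * chi n * (co n (y * t ^ 3)).im : ℝ) : ℂ) := by rw [hV n]
    rw [a1, a2, a3]
    push_cast at a4 ⊢
    linear_combination a4 + l * chi n * ((co n (y * t ^ 3)).im : ℂ) * I_mul_I
  have hV' : ∀ n : ℤ, ((n : ℂ) * ν) ^ 2 * co n z =
      (1 - l + 3 * (√3 : ℝ) * l * i0 n) * co n (z * s ^ 3) - I * l * chi n * co n (y * t ^ 3) := by
    intro n
    obtain ⟨m, rfl | rfl⟩ := n.eq_nat_or_neg
    · exact hV0 m
    · rw [hze, G_ev, Y_od, i0_neg, chi_neg]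
      have := hV0 m
      push_cast at this ⊢
      linear_combination this
  -- forces
  set Φ : FA := ((1 - l : ℝ) : ℂ) • (q * s ^ 3) + (((√3 : ℝ) : ℂ) * l) •
      (q * s ^ 3 + S1 (q * s ^ 3) + S2 (q * s ^ 3))
      - (((√3 : ℝ) : ℂ) * l * (-I / 3)) • (S2 (e * t ^ 3) - S1 (e * t ^ 3)) with hΦ
  set Ψ : FA := ((1 - l : ℝ) : ℂ) • (z * s ^ 3) + (((√3 : ℝ) : ℂ) * l) •
      (z * s ^ 3 + shift (-c3) (z * s ^ 3) + shift c3 (z * s ^ 3))
      - (((√3 : ℝ) : ℂ) * l * (1 / 3)) • (shift c3 (y * t ^ 3) - shift (-c3) (y * t ^ 3)) with hΨ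
  obtain ⟨p, hp1, hp2⟩ := second_order q (((ν : ℂ) ^ 2)⁻¹ • (q - Φ)) (2 * I / ν) (fun n => by
    simp only [hΦ, map_smul, map_sub, map_add, co_S1, co_S2, smul_eq_mul]
    have := hH' n
    push_cast
    field_simp
    linear_combination (-6) * this + 2 * (3 * ν ^ 2 * n ^ 2 * co n q + 6 * ν * n * co n q
      - (√3 : ℝ) ^ 2 * l * chi (1 - n) * co n (e * t ^ 3)) * I_mul_I
      + 2 * l * chi (1 - n) * co n (e * t ^ 3) * sqrt3_sq)
  obtain ⟨v, hv1, hv2⟩ := second_order z (((ν : ℂ) ^ 2)⁻¹ • (-Ψ)) 0 (fun n => by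
    simp only [hΨ, map_smul, map_sub, map_add, map_neg, co_shift_pos, co_shift_neg, smul_eq_mul]
    have := hV' n
    push_cast
    field_simp
    linear_combination (-6) * this + (6 * ν ^ 2 * n ^ 2 * co n z) * I_mul_I
      - 2 * I * l * chi n * co n (y * t ^ 3) * sqrt3_sq)
  have s_re : ∀ x, (((s x).re : ℝ) : ℂ) = s x := fun x => Complex.conj_eq_iff_re.mp (s_cj x)
  have t_re : ∀ x, (((t x).re : ℝ) : ℂ) = t x := fun x => Complex.conj_eq_iff_re.mp (t_cj x)
  refine ⟨l, ν, q, z, e, y, p, v, fun x => (s x).re, fun x => (t x).re, hl0, hl1, hν, z_im, y_im,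
    R1', R3', fun x => ⟨(s_eq x).1, ?_⟩, fun x => ⟨(t_eq x).1, ?_⟩, hp1, hv1, fun r => ?_,
    fun r => ?_, fun x hx => hD x ?_⟩
  · show (s x).re = _
    rw [(s_eq x).2, ofReal_re]
  · show (t x).re = _
    rw [(t_eq x).2, ofReal_re]
  · refine (hp2 r).congr_deriv ?_
    simp only [hΦ, s_re, t_re, ContinuousMap.smul_apply, ContinuousMap.sub_apply,
      ContinuousMap.add_apply, ContinuousMap.mul_apply, ContinuousMap.pow_apply, S1_apply,
      S2_apply, smul_eq_mul]
    push_cast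
    ring
  · refine (hv2 r).congr_deriv ?_
    simp only [hΨ, s_re, t_re, ContinuousMap.smul_apply, ContinuousMap.sub_apply,
      ContinuousMap.add_apply, ContinuousMap.mul_apply, ContinuousMap.pow_apply,
      ContinuousMap.neg_apply, shift_neg_apply, shift_pos_apply, smul_eq_mul]
    push_cast
    ring
  · simp only [ContinuousMap.smul_apply, ContinuousMap.sub_apply, ContinuousMap.neg_apply,
      ContinuousMap.add_apply, ContinuousMap.mul_apply, cj_apply, smul_eq_mul]
    have a1 := R1' x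
    have a2 := R2' x
    have a3 := R3' x
    have a4 := R4' x
    generalize om * q (x - gam) = Q1 at *
    generalize omb * q (x + gam) = Q2 at *
    have b1 := z_im x
    have b2 := z_im (x - gam)
    have b3 := z_im (x + gam)
    have b4 := y_im x
    have c1 := congrArg Complex.re a1
    have c2 := congrArg Complex.im a1
    have c3' := congrArg Complex.re a2
    have c4 := congrArg Complex.im a2
    have c5 := congrArg Complex.re a3
    have c6 := congrArg Complex.re a4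
    have c7 := congrArg Complex.im a4
    simp [b1, b2, b3, b4] at c1 c2 c3' c4 c5 c6 c7 hx
    have h3 : (0 : ℝ) < √3 := by positivity
    have d1 : (g x).re = ((q x).re + Q1.re + Q2.re) / 3 := by linarith
    have d2 : (g x).im = ((q x).im + Q1.im + Q2.im) / 3 := by linarith
    have d3 : (h x).re = ((z x).re + (z (x - gam)).re + (z (x + gam)).re) / 3 := by linarith
    have d4 : (e x).im = (Q2.re - Q1.re) / √3 := by field_simp; linarith
    have d5 : (e x).re = -(Q2.im - Q1.im) / √3 := by field_simp; linarith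
    have d6 : (y x).re = ((z (x + gam)).re - (z (x - gam)).re) / √3 := by field_simp; linarith
    apply Complex.ext
    · simp [b1, b4, c7, d1, d2, d3, d4, d5, d6]
      field_simp
      linear_combination 4 * hx
    · simp [b1, b4, c7]
      ring

end Pool.Agent.Lib.MP_ba391d_an
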