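import Pool.Agent.Lib.MP_ba391d_an.Fourier

/-! The rescaled Fourier system and its smoothness. -/

set_option autoImplicit false

open Complex
open scoped Real ComplexConjugate BoundedContinuousFunction Topology

noncomputable section

namespace Pool.Agent.Lib.MP_ba391d_an

abbrev BZ : Type := ℤ →ᵇ ℝ
abbrev BN : Type := ℕ →ᵇ ℝ

def kk : ℝ := 3 * √3 - 1
def lam0 : ℝ := (8 * kk - 9) / (9 * kk)
def bet : ℝ := (kk + 9) / (3 * kk)

lemma sqrt3_bounds : 1.732 < √3 ∧ √3 < 1.7321 := by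
  constructor
  · rw [Real.lt_sqrt (by norm_num)]; norm_num
  · rw [Real.sqrt_lt' (by norm_num)]; norm_num

lemma kk_bounds : 4.19 < kk ∧ kk < 4.2 := by
  have := sqrt3_bounds
  unfold kk; constructor <;> linarith [this.1, this.2]

lemma kk_pos : 0 < kk := by linarith [kk_bounds.1]

lemma lam0_bounds : 0.6 < lam0 ∧ lam0 < 0.7 := by
  have := kk_bounds
  have h := kk_pos
  unfold lam0
  constructor
  · rw [lt_div_iff₀ (by positivity)]; linarith [this.1, this.2]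
  · rw [div_lt_iff₀ (by positivity)]; linarith [this.1, this.2]

lemma kk_lam0 : kk * lam0 = 8 * kk / 9 - 1 := by
  have h := kk_pos.ne'
  unfold lam0; field_simp

lemma bet_eq : bet = 3 * (1 - lam0) := by
  have h := kk_pos.ne'
  unfold lam0 bet; field_simp; ring

lemma kk_bet : kk * (3 * bet - 1) = 9 := by
  have h := kk_pos.ne'
  unfold bet; field_simp; ring

lemma sqrt3_eq : 3 * √3 = kk + 1 := by unfold kk; ring

def chi (n : ℤ) : ℝ := if n % 3 = 0 then 0 else if n % 3 = 1 then 1 else -1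
def i0 (n : ℤ) : ℝ := if n % 3 = 0 then 1 else 0
def i1 (n : ℤ) : ℝ := if n % 3 = 1 then 1 else 0

lemma norm_chi (n : ℤ) : ‖(chi n : ℂ)‖ ≤ 1 := by
  unfold chi; split_ifs <;> simp
lemma norm_i0 (n : ℤ) : ‖(i0 n : ℂ)‖ ≤ 1 := by
  unfold i0; split_ifs <;> simp
lemma norm_i1 (n : ℤ) : ‖(i1 n : ℂ)‖ ≤ 1 := by
  unfold i1; split_ifs <;> simp
lemma norm_Ichi (n : ℤ) : ‖I * (chi n : ℂ)‖ ≤ 1 := by
  rw [norm_mul, Complex.norm_I, one_mul]; exact norm_chi n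

def Eq_ : BZ →L[ℝ] FA := Ev id (fun _ => 1) (fun _ => by simp)
def Ee : BZ →L[ℝ] FA := Ev id (fun n => chi (1 - n)) (fun _ => norm_chi _)
def Eg : BZ →L[ℝ] FA := Ev id (fun n => i1 n) norm_i1
def Ez : BN →L[ℝ] FA := Ev Int.natAbs (fun _ => 1) (fun _ => by simp)
def Ey : BN →L[ℝ] FA := Ev Int.natAbs (fun n => I * chi n) norm_Ichi
def Eh : BN →L[ℝ] FA := Ev Int.natAbs (fun n => i0 n) norm_i0

lemma co_Eq (b : BZ) (n : ℤ) : co n (Eq_ b) = wt n * b n := by simp [Eq_, co_Ev]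
lemma co_Ee (b : BZ) (n : ℤ) : co n (Ee b) = chi (1 - n) * wt n * b n := by simp [Ee, co_Ev]
lemma co_Eg (b : BZ) (n : ℤ) : co n (Eg b) = i1 n * wt n * b n := by simp [Eg, co_Ev]
lemma co_Ez (c : BN) (n : ℤ) : co n (Ez c) = wt n * c n.natAbs := by simp [Ez, co_Ev]
lemma co_Ey (c : BN) (n : ℤ) : co n (Ey c) = I * chi n * wt n * c n.natAbs := by simp [Ey, co_Ev]
lemma co_Eh (c : BN) (n : ℤ) : co n (Eh c) = i0 n * wt n * c n.natAbs := by simp [Eh, co_Ev]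

def C1 : FA →L[ℝ] BZ := Co id (fun _ => 1) (fun _ => by simp)
def Ci1 : FA →L[ℝ] BZ := Co id (fun n => i1 n) norm_i1
def Cchi : FA →L[ℝ] BZ := Co id (fun n => chi (1 - n)) (fun _ => norm_chi _)
def D1 : FA →L[ℝ] BN := Co (fun n : ℕ => (n : ℤ)) (fun _ => 1) (fun _ => by simp)
def Di0 : FA →L[ℝ] BN := Co (fun n : ℕ => (n : ℤ)) (fun n => i0 n) norm_i0
def Dchi : FA →L[ℝ] BN := Co (fun n : ℕ => (n : ℤ)) (fun n => I * chi n) norm_Ichi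

lemma C1_apply (f : FA) (n : ℤ) : C1 f n = (co n f).re := by simp [C1, Co_apply]
lemma Ci1_apply (f : FA) (n : ℤ) : Ci1 f n = i1 n * (co n f).re := by simp [Ci1, Co_apply]
lemma Cchi_apply (f : FA) (n : ℤ) : Cchi f n = chi (1 - n) * (co n f).re := by
  simp [Cchi, Co_apply]
lemma D1_apply (f : FA) (n : ℕ) : D1 f n = (co n f).re := by simp [D1, Co_apply]
lemma Di0_apply (f : FA) (n : ℕ) : Di0 f n = i0 n * (co n f).re := by simp [Di0, Co_apply]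
lemma Dchi_apply (f : FA) (n : ℕ) : Dchi f n = -(chi n * (co n f).im) := by
  simp [Dchi, Co_apply]

lemma sq_wt_le (n : ℤ) : ‖(n : ℝ) ^ 2 * wt n‖ ≤ 1 := by
  have := wt_pos n
  rw [Real.norm_of_nonneg (by positivity)]
  unfold wt
  rw [mul_one_div, div_le_one (by positivity)]; linarith

lemma lin_wt_le (n : ℤ) : ‖(n : ℝ) * wt n‖ ≤ 1 := by
  have := wt_pos n
  rw [norm_mul, Real.norm_of_nonneg this.le, Real.norm_eq_abs]
  unfold wt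
  rw [mul_one_div, div_le_one (by positivity)]
  nlinarith [sq_abs (n : ℝ), sq_nonneg (|(n : ℝ)| - 1), abs_nonneg (n : ℝ)]

def p2 : BZ := BoundedContinuousFunction.ofNormedAddCommGroupDiscrete
  (fun n : ℤ => (n : ℝ) ^ 2 * wt n) 1 sq_wt_le
def p1 : BZ := BoundedContinuousFunction.ofNormedAddCommGroupDiscrete
  (fun n : ℤ => (n : ℝ) * wt n) 1 lin_wt_le
def p0 : BZ := BoundedContinuousFunction.ofNormedAddCommGroupDiscrete
  (fun n : ℤ => wt n) 1 (fun n => by rw [Real.norm_of_nonneg (wt_pos n).le]; exact wt_le_one n)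
def pN : BN := BoundedContinuousFunction.ofNormedAddCommGroupDiscrete
  (fun n : ℕ => (n : ℝ) ^ 2 * wt n) 1 (fun n => by simpa using sq_wt_le n)

lemma p2_apply (n : ℤ) : p2 n = (n : ℝ) ^ 2 * wt n := rfl
lemma p1_apply (n : ℤ) : p1 n = (n : ℝ) * wt n := rfl
lemma p0_apply (n : ℤ) : p0 n = wt n := rfl
lemma pN_apply (n : ℕ) : pN n = (n : ℝ) ^ 2 * wt n := rfl

def b0 : BZ := BoundedContinuousFunction.ofNormedAddCommGroupDiscrete
  (fun n : ℤ => if n = 1 then 2 else if n = -1 then -2 * bet else 0) (2 + 2 * |bet|) (fun n => by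
    have := abs_nonneg bet
    split_ifs
    · simp
    · simp
    · simp; linarith)
def c0 : BN := BoundedContinuousFunction.ofNormedAddCommGroupDiscrete
  (fun n : ℕ => if n = 1 then 2 else 0) 2 (fun n => by split_ifs <;> simp)

lemma b0_apply (n : ℤ) : b0 n = if n = 1 then 2 else if n = -1 then -2 * bet else 0 := rfl
lemma c0_apply (n : ℕ) : c0 n = if n = 1 then 2 else 0 := rfl

def sg0 : FA := (-1 / 2 : ℝ) • (Eq_ b0 + cj (Eq_ b0))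
def ta0 : FA := (-1 / 2 : ℝ) • (Ee b0 + cj (Ee b0))

def RF (ε : ℝ) (w σ : FA) : FA := 3 * w * σ + (1 + ε • w) * σ ^ 2 * (3 + ε • σ)
def RG (ε : ℝ) (ζ σ : FA) : FA := ζ * σ * (3 + ε • σ * (3 + ε • σ))
def rho1 (ε : ℝ) (w ζ : FA) : FA := w + cj w + ε • (w * cj w + ζ ^ 2)
def RS (ε : ℝ) (w ζ σ : FA) : FA :=
  w * cj w + ζ ^ 2 + σ ^ 2 + 2 * σ * rho1 ε w ζ + ε • (σ ^ 2 * rho1 ε w ζ)

abbrev XX : Type := BZ × BN × FA × FA × ℝ × ℝ
abbrev YY : Type := BZ × BN × FA × FA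

def bb (p : ℝ × XX) : BZ := b0 + p.1 • p.2.1
def cc (p : ℝ × XX) : BN := c0 + p.1 • p.2.2.1
def sg (p : ℝ × XX) : FA := sg0 + p.1 • p.2.2.2.1
def ta (p : ℝ × XX) : FA := ta0 + p.1 • p.2.2.2.2.1
def nu (p : ℝ × XX) : ℝ := 1 + p.1 * p.2.2.2.2.2.1
def lam (p : ℝ × XX) : ℝ := lam0 + p.1 * p.2.2.2.2.2.2

def F2 (p : ℝ × XX) : FA := Eq_ p.2.1 + (3 : ℝ) • p.2.2.2.1 + RF p.1 (Eq_ (bb p)) (sg p)
def E2 (p : ℝ × XX) : FA := Ee p.2.1 + (3 : ℝ) • p.2.2.2.2.1 + RF p.1 (Ee (bb p)) (ta p)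
def G2 (p : ℝ × XX) : FA := Ez p.2.2.1 + RG p.1 (Ez (cc p)) (sg p)
def Y2 (p : ℝ × XX) : FA := Ey p.2.2.1 + RG p.1 (Ey (cc p)) (ta p)
def F1 : FA := Eq_ b0 + (3 : ℝ) • sg0
def E1 : FA := Ee b0 + (3 : ℝ) • ta0
def KK : BZ := -C1 F1 + (3 * √3) • Ci1 F1 + Cchi E1

def Ps1 (p : ℝ × XX) : BZ :=
  ((nu p ^ 2) • p2 + (2 * nu p) • p1 + p0) * p.2.1
    + ((2 * p.2.2.2.2.2.1 + p.1 * p.2.2.2.2.2.1 ^ 2) • p2 + (2 * p.2.2.2.2.2.1) • p1) * b0
    - (1 - lam p) • C1 (F2 p) - (3 * √3 * lam p) • Ci1 (F2 p) - lam p • Cchi (E2 p)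
    - p.2.2.2.2.2.2 • KK

def Ps2 (p : ℝ × XX) : BN :=
  ((nu p ^ 2) • pN) * p.2.2.1
    + ((2 * p.2.2.2.2.2.1 + p.1 * p.2.2.2.2.2.1 ^ 2) • pN) * c0
    - (1 - lam p) • D1 (G2 p) - (3 * √3 * lam p) • Di0 (G2 p) + lam p • Dchi (Y2 p)

def Ps3 (p : ℝ × XX) : FA :=
  (2 : ℝ) • p.2.2.2.1 + Eq_ p.2.1 + cj (Eq_ p.2.1) + RS p.1 (Eq_ (bb p)) (Ez (cc p)) (sg p)

def Ps4 (p : ℝ × XX) : FA :=
  (2 : ℝ) • p.2.2.2.2.1 + Ee p.2.1 + cj (Ee p.2.1) + RS p.1 (Ee (bb p)) (Ey (cc p)) (ta p)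

def Ps (p : ℝ × XX) : YY := (Ps1 p, Ps2 p, Ps3 p, Ps4 p)

@[fun_prop] lemma contDiff_bb : ContDiff ℝ 1 bb := by unfold bb; fun_prop
@[fun_prop] lemma contDiff_cc : ContDiff ℝ 1 cc := by unfold cc; fun_prop
@[fun_prop] lemma contDiff_sg : ContDiff ℝ 1 sg := by unfold sg; fun_prop
@[fun_prop] lemma contDiff_ta : ContDiff ℝ 1 ta := by unfold ta; fun_prop
@[fun_prop] lemma contDiff_nu : ContDiff ℝ 1 nu := by unfold nu; fun_prop
@[fun_prop] lemma contDiff_lam : ContDiff ℝ 1 lam := by unfold lam; fun_prop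
@[fun_prop] lemma contDiff_F2 : ContDiff ℝ 1 F2 := by unfold F2 RF; fun_prop
@[fun_prop] lemma contDiff_E2 : ContDiff ℝ 1 E2 := by unfold E2 RF; fun_prop
@[fun_prop] lemma contDiff_G2 : ContDiff ℝ 1 G2 := by unfold G2 RG; fun_prop
@[fun_prop] lemma contDiff_Y2 : ContDiff ℝ 1 Y2 := by unfold Y2 RG; fun_prop
lemma contDiff_Ps1 : ContDiff ℝ 1 Ps1 := by unfold Ps1; fun_prop
lemma contDiff_Ps2 : ContDiff ℝ 1 Ps2 := by unfold Ps2; fun_prop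
lemma contDiff_Ps3 : ContDiff ℝ 1 Ps3 := by unfold Ps3 RS rho1; fun_prop
lemma contDiff_Ps4 : ContDiff ℝ 1 Ps4 := by unfold Ps4 RS rho1; fun_prop
lemma contDiff_Ps : ContDiff ℝ 1 Ps :=
  contDiff_Ps1.prodMk (contDiff_Ps2.prodMk (contDiff_Ps3.prodMk contDiff_Ps4))

end Pool.Agent.Lib.MP_ba391d_an
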