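import Pool.Agent.Lib.MP_ba391d_an.Linear

/-! Existence of a solution of the Fourier system with small positive amplitude. -/

set_option autoImplicit false

open Complex
open scoped Real ComplexConjugate BoundedContinuousFunction Topology

noncomputable section

namespace Pool.Agent.Lib.MP_ba391d_an

@[simp] lemma FA_two (x : Cir) : (2 : FA) x = 2 := rfl
@[simp] lemma FA_three (x : Cir) : (3 : FA) x = 3 := rfl

lemma Eq_b0 : Eq_ b0 = ee 1 - bet • ee (-1) := by
  refine FA_ext fun n => ?_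
  rw [co_Eq, map_sub, co_real_smul, co_ee, co_ee, b0_apply]
  by_cases h1 : n = 1
  · subst h1; rw [wt_one]; norm_num
  · by_cases h2 : n = -1
    · subst h2; rw [wt_neg_one]; norm_num; ring
    · simp [h1, h2]

lemma Eg_b0 : Eg b0 = ee 1 := by
  refine FA_ext fun n => ?_
  rw [co_Eg, co_ee, b0_apply]
  by_cases h1 : n = 1
  · subst h1; rw [wt_one]; norm_num [i1]
  · by_cases h2 : n = -1
    · subst h2; norm_num [i1]
    · simp [h1, h2]

lemma Ez_c0 : Ez c0 = ee 1 + ee (-1) := by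
  refine FA_ext fun n => ?_
  rw [co_Ez, map_add, co_ee, co_ee, c0_apply]
  by_cases h1 : n = 1
  · subst h1; rw [wt_one]; norm_num
  · by_cases h2 : n = -1
    · subst h2; rw [wt_neg_one]; norm_num
    · have : n.natAbs ≠ 1 := by omega
      simp [h1, h2, this]

lemma Ey_c0 : Ey c0 = I • (ee 1 - ee (-1)) := by
  refine FA_ext fun n => ?_
  rw [co_Ey, map_smul, map_sub, co_ee, co_ee, c0_apply]
  by_cases h1 : n = 1
  · subst h1; rw [wt_one]; norm_num [chi]; ring
  · by_cases h2 : n = -1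
    · subst h2; rw [wt_neg_one]; norm_num [chi]; ring
    · have : n.natAbs ≠ 1 := by omega
      simp [h1, h2, this]

lemma Eh_c0 : Eh c0 = 0 := by
  refine FA_ext fun n => ?_
  rw [co_Eh, map_zero, c0_apply]
  by_cases h1 : n = 1
  · subst h1; norm_num [i0]
  · by_cases h2 : n = -1
    · subst h2; norm_num [i0]
    · have : n.natAbs ≠ 1 := by omega
      simp [this]

lemma cj_ee (n : ℤ) : cj (ee n) = ee (-n) := star_ee n

lemma sg0_eq : sg0 = (-(1 - bet) / 2) • (ee 1 + ee (-1)) := by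
  unfold sg0
  rw [Eq_b0, map_sub, map_smul, cj_ee, cj_ee, neg_neg]
  module

lemma RG0_eq : RG 0 (Ez c0) sg0 = (-3 * (1 - bet) / 2) • (ee 2 + (2 : ℝ) • 1 + ee (-2)) := by
  have h1 : ee 1 * ee 1 = ee 2 := ee_mul 1 1
  have h2 : ee 1 * ee (-1) = 1 := by rw [ee_mul]; exact ee_zero
  have h3 : ee (-1) * ee (-1) = ee (-2) := ee_mul (-1) (-1)
  have h4 : (ee 1 + ee (-1)) * (ee 1 + ee (-1)) = ee 2 + (2 : ℝ) • 1 + ee (-2) := by
    rw [← h1, ← h3, two_smul]; linear_combination 2 * h2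
  unfold RG
  rw [sg0_eq, Ez_c0, zero_smul, zero_mul, add_zero, mul_smul_comm, h4]
  ext x
  simp
  ring

lemma Eh_base (u : XX) (hu : LL u + HH = 0) : Eh u.2.1 = (3 * (1 - bet)) • (1 : FA) := by
  have h2 : L2 u + H2 = 0 := congrArg (fun y : YY => y.2.1) hu
  have key : ∀ n : ℕ, n % 3 = 0 → u.2.1 n = if n = 0 then 3 * (1 - bet) else 0 := by
    intro n hn
    have hn1 : n ≠ 1 := by omega
    have hz : (n : ℤ) % 3 = 0 := by omega
    have h3 : (L2 u + H2) n = 0 := by rw [h2]; rfl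
    rw [BoundedContinuousFunction.add_apply, L2_apply] at h3
    simp only [H2, BoundedContinuousFunction.add_apply, BoundedContinuousFunction.sub_apply,
      BoundedContinuousFunction.smul_apply, smul_eq_mul, D1_apply, Di0_apply, Dchi_apply, RG0_eq,
      co_real_smul, map_add, co_ee, co_one, chi, i0, hz, sqrt3_eq, hn1] at h3
    have h4 : (n : ℤ) ≠ 2 := by omega
    have h5 : (n : ℤ) ≠ -2 := by omega
    have hk := kk_lam0
    by_cases h0 : n = 0
    · subst h0
      simp [wt_zero, VV] at h3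
      have hkp := kk_pos
      have : kk * (u.2.1 0 - 3 * (1 - bet)) = 0 := by
        linear_combination (-9 / 8) * h3 + (9 / 8) * 3 * (1 - bet) * hk
      rcases mul_eq_zero.mp this with h | h
      · exact absurd h hkp.ne'
      · simp; linarith
    · simp [h0, h4, h5, (wt_pos n).ne', VV_ne n hn1] at h3
      simp [h0, h3]
  refine FA_ext fun n => ?_
  rw [co_Eh, co_real_smul, co_one]
  by_cases hn : n % 3 = 0
  · rw [key n.natAbs (by omega)]
    by_cases h0 : n = 0
    · subst h0; simp [i0, wt_zero]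
    · simp [h0]
  · have h0 : n ≠ 0 := by omega
    simp [i0, hn, h0]

def qq (p : ℝ × XX) : FA := 1 + p.1 • Eq_ (bb p)
def eq2 (p : ℝ × XX) : FA := 1 + p.1 • Ee (bb p)

/-- Twice the rescaled determinant. -/
def Det2 (p : ℝ × XX) : FA :=
  -(Ez (cc p) * (cj (Eg (bb p)) * eq2 p + Eg (bb p) * cj (eq2 p)))
    + Eh p.2.2.1 * (cj (eq2 p) * qq p + eq2 p * cj (qq p))
    - I • (Ey (cc p) * (cj (qq p) * Eg (bb p) - qq p * cj (Eg (bb p))))

lemma continuous_Det2 : Continuous Det2 := by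
  have h1 := contDiff_bb.continuous
  have h2 := contDiff_cc.continuous
  unfold Det2 qq eq2
  fun_prop

lemma cj_one : cj 1 = 1 := by ext x; simp

lemma Det2_base (u : XX) (hu : LL u + HH = 0) : Det2 (0, u) = (2 - 6 * bet) • (1 : FA) := by
  have h2 : ee 1 * ee (-1) = 1 := by rw [ee_mul]; exact ee_zero
  simp only [Det2, qq, eq2, bb, cc, zero_smul, add_zero, Eh_base u hu, Ez_c0, Ey_c0, Eg_b0, cj_ee,
    cj_one]
  ext x
  have h3 : ee 1 x * ee (-1) x = 1 := by
    have := congrArg (fun f : FA => f x) h2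
    simpa only [ContinuousMap.mul_apply, ContinuousMap.one_apply] using this
  simp only [ContinuousMap.add_apply, ContinuousMap.sub_apply, ContinuousMap.mul_apply,
    ContinuousMap.neg_apply, ContinuousMap.smul_apply, ContinuousMap.one_apply, smul_eq_mul,
    real_smul]
  push_cast
  linear_combination (-4) * h3 - (ee 1 x - ee (-1) x) ^ 2 * I_mul_I

lemma bet_gt : 1 < bet := by
  have := kk_bounds
  have h := kk_pos
  unfold bet
  rw [lt_div_iff₀ (by positivity)]; linarith [this.2]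

lemma exists_solution : ∃ p : ℝ × XX, 0 < p.1 ∧ Ps p = 0 ∧ 0 < lam p ∧ lam p < 1 ∧ 0 < nu p ∧
    ‖p.1 • sg p‖ < 1 ∧ ‖p.1 • ta p‖ < 1 ∧ ∀ x, Det2 p x ≠ 0 := by
  obtain ⟨u0, hu0⟩ := LL_surjective (-HH)
  have hu : LL u0 + HH = 0 := by rw [hu0, neg_add_cancel]
  have c1 := contDiff_lam.continuous
  have c2 := contDiff_nu.continuous
  have c3 := contDiff_sg.continuous
  have c4 := contDiff_ta.continuous
  have c5 := continuous_Det2
  have hV : {p : ℝ × XX | 0 < lam p ∧ lam p < 1 ∧ 0 < nu p ∧ ‖p.1 • sg p‖ < 1 ∧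
      ‖p.1 • ta p‖ < 1 ∧ ‖Det2 p - (2 - 6 * bet) • (1 : FA)‖ < 1} ∈ 𝓝 ((0 : ℝ), u0) := by
    have hl := lam0_bounds
    have a1 : ∀ᶠ p in 𝓝 ((0 : ℝ), u0), 0 < lam p :=
      continuousAt_const.eventually_lt c1.continuousAt (by simp [lam]; linarith [hl.1])
    have a2 : ∀ᶠ p in 𝓝 ((0 : ℝ), u0), lam p < 1 :=
      c1.continuousAt.eventually_lt continuousAt_const (by simp [lam]; linarith [hl.2])
    have a3 : ∀ᶠ p in 𝓝 ((0 : ℝ), u0), 0 < nu p :=
      continuousAt_const.eventually_lt c2.continuousAt (by simp [nu])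
    have a4 : ∀ᶠ p in 𝓝 ((0 : ℝ), u0), ‖p.1 • sg p‖ < 1 :=
      ContinuousAt.eventually_lt (f := fun p : ℝ × XX => ‖p.1 • sg p‖) (by fun_prop)
        continuousAt_const (by simp)
    have a5 : ∀ᶠ p in 𝓝 ((0 : ℝ), u0), ‖p.1 • ta p‖ < 1 :=
      ContinuousAt.eventually_lt (f := fun p : ℝ × XX => ‖p.1 • ta p‖) (by fun_prop)
        continuousAt_const (by simp)
    have a6 : ∀ᶠ p in 𝓝 ((0 : ℝ), u0), ‖Det2 p - (2 - 6 * bet) • (1 : FA)‖ < 1 :=
      ContinuousAt.eventually_lt (f := fun p : ℝ × XX => ‖Det2 p - (2 - 6 * bet) • (1 : FA)‖)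
        (by fun_prop) continuousAt_const (by simp [Det2_base u0 hu])
    exact a1.and (a2.and (a3.and (a4.and (a5.and a6))))
  obtain ⟨p, ⟨h1, h2, h3, h4, h5, h6⟩, hp, hPs⟩ := exists_continuation Ps contDiff_Ps LL u0
    (fun v => by rw [Ps_zero, LL_add, hu0]; abel) LL_smul LL_surjective _ hV
  refine ⟨p, hp, hPs, h1, h2, h3, h4, h5, fun x hx => ?_⟩
  have h7 := (Det2 p - (2 - 6 * bet) • (1 : FA)).norm_coe_le_norm x
  have h8 : (Det2 p - (2 - 6 * bet) • (1 : FA)) x = ((6 * bet - 2 : ℝ) : ℂ) := by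
    simp [hx]
  rw [h8, Complex.norm_real, Real.norm_eq_abs] at h7
  have := le_abs_self (6 * bet - 2)
  linarith [bet_gt]

lemma ker_H (n : ℤ) : ((n : ℝ) + 1) ^ 2 * (wt n * b0 n)
    - (1 - lam0 + 3 * √3 * lam0 * i1 n) * (co n F1).re - lam0 * chi (1 - n) * (co n E1).re = 0 := by
  simp only [F1, E1, sg0, ta0, map_add, co_real_smul, co_cj, co_Eq, co_Ee, sqrt3_eq, b0_apply]
  have h := kk_bet
  have h' := kk_lam0
  have h'' := bet_eq
  by_cases h1 : n = 1
  · subst h1
    simp [chi, i1]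
    rw [wt_one, wt_neg_one]
    linear_combination (-4 / 9) * h - (3 * bet - 1) / 2 * h'
  · by_cases h2 : n = -1
    · subst h2
      simp [chi, i1]
      rw [wt_one, wt_neg_one]
      linear_combination (-1 / 2) * h''
    · have h3 : -n ≠ 1 := by omega
      have h4 : -n ≠ -1 := by omega
      simp [h1, h2, h3, h4]

theorem weak_solution : ∃ (l ν : ℝ) (q z e y g h s t : FA), 0 < l ∧ l < 1 ∧ 0 < ν ∧
    (∀ n, co n e = chi (1 - n) * co n q) ∧ (∀ n, co n g = i1 n * co n q) ∧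
    (∀ n, co n y = I * chi n * co n z) ∧ (∀ n, co n h = i0 n * co n z) ∧
    (∀ n, (co n q).im = 0) ∧ (∀ n, (co n z).im = 0) ∧ (∀ n, co (-n) z = co n z) ∧
    s ^ 2 * (q * cj q + z ^ 2) = 1 ∧ t ^ 2 * (e * cj e + y ^ 2) = 1 ∧
    ‖s - 1‖ < 1 ∧ ‖t - 1‖ < 1 ∧
    (∀ n : ℤ, (n * ν + 1) ^ 2 * (co n q).re =
      (1 - l + 3 * √3 * l * i1 n) * (co n (q * s ^ 3)).re
        + l * chi (1 - n) * (co n (e * t ^ 3)).re) ∧
    (∀ n : ℕ, (n * ν) ^ 2 * (co n z).re =
      (1 - l + 3 * √3 * l * i0 n) * (co n (z * s ^ 3)).re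
        + l * chi n * (co n (y * t ^ 3)).im) ∧
    ∀ x, (-(z * (cj g * e + g * cj e)) + h * (cj e * q + e * cj q)
      - I • (y * (cj q * g - q * cj g))) x ≠ 0 := by
  obtain ⟨p, hε, hPs, h1, h2, h3, h4, h5, h6⟩ := exists_solution
  have e1 : Ps1 p = 0 := congrArg (fun y : YY => y.1) hPs
  have e2 : Ps2 p = 0 := congrArg (fun y : YY => y.2.1) hPs
  have e3 : Ps3 p = 0 := congrArg (fun y : YY => y.2.2.1) hPs
  have e4 : Ps4 p = 0 := congrArg (fun y : YY => y.2.2.2) hPs
  obtain ⟨ε, b, c, σ1, τ1, π1, π2⟩ := p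
  set p : ℝ × XX := (ε, b, c, σ1, τ1, π1, π2) with hp
  have hF : qq p * (1 + ε • sg p) ^ 3 = 1 + ε • F1 + (ε ^ 2) • F2 p := by
    ext x
    simp [qq, F1, F2, RF, bb, sg, hp]
    ring
  have hE : eq2 p * (1 + ε • ta p) ^ 3 = 1 + ε • E1 + (ε ^ 2) • E2 p := by
    ext x
    simp [eq2, E1, E2, RF, bb, ta, hp]
    ring
  have hG : (ε • Ez (cc p)) * (1 + ε • sg p) ^ 3 = ε • Ez c0 + (ε ^ 2) • G2 p := by
    ext x
    simp [G2, RG, cc, hp]
    ring
  have hY : (ε • Ey (cc p)) * (1 + ε • ta p) ^ 3 = ε • Ey c0 + (ε ^ 2) • Y2 p := by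
    ext x
    simp [Y2, RG, cc, hp]
    ring
  refine ⟨lam p, nu p, qq p, ε • Ez (cc p), eq2 p, ε • Ey (cc p), ε • Eg (bb p), ε • Eh (cc p),
    1 + ε • sg p, 1 + ε • ta p, h1, h2, h3, fun n => ?_, fun n => ?_, fun n => ?_, fun n => ?_,
    fun n => ?_, fun n => ?_, fun n => ?_, ?_, ?_, by simpa using h4, by simpa using h5,
    fun n => ?_, fun n => ?_, fun x => ?_⟩
  · simp only [qq, eq2, map_add, co_real_smul, co_one, co_Ee, co_Eq]
    split_ifs with hn
    · subst hn; simp [chi]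
    · ring
  · simp only [qq, map_add, co_real_smul, co_one, co_Eg, co_Eq]
    split_ifs with hn
    · subst hn; simp [i1]
    · simp only [hp]; ring
  · simp only [co_real_smul, co_Ey, co_Ez]; ring
  · simp only [co_real_smul, co_Eh, co_Ez]; ring
  · simp only [qq, map_add, co_real_smul, co_one, co_Eq]
    split_ifs <;> simp
  · simp [co_Ez]
  · simp [co_Ez, wt_neg]
  · have : (1 + ε • sg p) ^ 2 * (qq p * cj (qq p) + (ε • Ez (cc p)) ^ 2)
        = 1 + (ε ^ 2) • Ps3 p := by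
      ext x
      simp [qq, Ps3, RS, rho1, bb, sg, sg0, hp]
      ring
    rw [this, e3, smul_zero, add_zero]
  · have : (1 + ε • ta p) ^ 2 * (eq2 p * cj (eq2 p) + (ε • Ey (cc p)) ^ 2)
        = 1 + (ε ^ 2) • Ps4 p := by
      ext x
      simp [eq2, Ps4, RS, rho1, bb, ta, ta0, hp]
      ring
    rw [this, e4, smul_zero, add_zero]
  · rw [hF, hE]
    have a1 : Ps1 p n = 0 := by rw [e1]; rfl
    have a2 := ker_H n
    simp only [Ps1, KK, BoundedContinuousFunction.add_apply, BoundedContinuousFunction.sub_apply,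
      BoundedContinuousFunction.mul_apply, BoundedContinuousFunction.smul_apply, smul_eq_mul,
      BoundedContinuousFunction.neg_apply,
      C1_apply, Ci1_apply, Cchi_apply, p2_apply, p1_apply, p0_apply] at a1
    simp only [qq, bb, map_add, co_real_smul, co_one, co_Eq, add_re, re_ofReal_mul,
      BoundedContinuousFunction.smul_apply, smul_eq_mul, ofReal_re]
    simp only [nu, lam, hp] at a1 ⊢
    split_ifs with hn
    · subst hn
      simp [i1, chi] at a1 a2 ⊢
      linear_combination ε ^ 2 * a1 + ε * a2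
    · simp only [zero_re]
      linear_combination ε ^ 2 * a1 + ε * a2
  · rw [hG, hY]
    have a1 : Ps2 p n = 0 := by rw [e2]; rfl
    simp only [Ps2, BoundedContinuousFunction.add_apply, BoundedContinuousFunction.sub_apply,
      BoundedContinuousFunction.mul_apply, BoundedContinuousFunction.smul_apply, smul_eq_mul,
      D1_apply, Di0_apply, Dchi_apply, pN_apply] at a1
    simp only [cc, map_add, co_real_smul, co_Ez, co_Ey, add_re, add_im, re_ofReal_mul,
      im_ofReal_mul, BoundedContinuousFunction.smul_apply,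
      smul_eq_mul, ofReal_re, Int.natAbs_natCast]
    simp only [nu, lam, hp, c0_apply] at a1 ⊢
    split_ifs at a1 ⊢ with hn
    · subst hn
      simp [i0, chi] at a1 ⊢
      linear_combination ε ^ 2 * a1
    · simp at a1 ⊢
      linear_combination ε ^ 2 * a1
  · have : (-(ε • Ez (cc p) * (cj (ε • Eg (bb p)) * eq2 p + ε • Eg (bb p) * cj (eq2 p)))
        + ε • Eh (cc p) * (cj (eq2 p) * qq p + eq2 p * cj (qq p))
        - I • (ε • Ey (cc p) * (cj (qq p) * ε • Eg (bb p) - qq p * cj (ε • Eg (bb p))))) x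
        = ε ^ 2 * Det2 p x := by
      have : Eh (cc p) = ε • Eh c := by simp [cc, Eh_c0, hp]
      rw [this]
      simp [Det2, hp]
      ring
    rw [this]
    exact mul_ne_zero (pow_ne_zero _ (by exact_mod_cast hε.ne')) (h6 x)

end Pool.Agent.Lib.MP_ba391d_an
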